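import Pool.Agent.U613.PO.Lab

/-!
# Groups with finitely many conjugacy classes and divisible groups
-/

set_option autoImplicit false

namespace Pool.Agent.U613.MG

open Pool.Agent.U613.PO Subgroup

universe u v

section Wreath

variable {C : Type u} {Q : Type v} [Group C] [Group Q]

theorem exists_exp [Finite C] (c d : C) :
    ∃ i : ℕ, ((QuotientGroup.mk d : C ⧸ zpowers c).out) * c ^ i = d := by
  have h1 : (QuotientGroup.mk ((QuotientGroup.mk d : C ⧸ zpowers c).out) : C ⧸ zpowers c) =
      QuotientGroup.mk d := Quotient.out_eq' _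
  have h2 := QuotientGroup.eq.1 h1
  obtain ⟨i, hi⟩ := mem_powers_iff_mem_zpowers.2 h2
  have hi' : c ^ i = ((QuotientGroup.mk d : C ⧸ zpowers c).out)⁻¹ * d := hi
  exact ⟨i, by rw [hi', mul_inv_cancel_left]⟩

/-- every element of a wreath product is conjugate to one whose function has values in a fixed
system of representatives of the conjugacy classes -/
theorem exists_conj_form [Finite C] (R : Set Q) (hR : ∀ q : Q, ∃ b : Q, b * q * b⁻¹ ∈ R)
    (w : W C Q) : ∃ v : W C Q, ∀ d, (v * w * v⁻¹).left d = 1 ∨ (v * w * v⁻¹).left d ∈ R := by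
  classical
  choose b hb using hR
  set c := w.right with hc
  let δ : C → C := fun d => (QuotientGroup.mk d : C ⧸ zpowers c).out
  have hδ : ∀ d, ∃ i : ℕ, δ d * c ^ i = d := exists_exp c
  let i : C → ℕ := fun d => Nat.find (hδ d)
  have hi : ∀ d, δ d * c ^ (i d) = d := fun d => Nat.find_spec (hδ d)
  have hi' : ∀ d (j : ℕ), δ d * c ^ j = d → i d ≤ j := fun d j h => Nat.find_min' (hδ d) h
  have hδc : ∀ d, δ (d * c) = δ d := by
    intro d
    have : (QuotientGroup.mk (d * c) : C ⧸ zpowers c) = QuotientGroup.mk d := by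
      rw [eq_comm, QuotientGroup.eq, inv_mul_cancel_left]
      exact mem_zpowers c
    show (QuotientGroup.mk (d * c) : C ⧸ zpowers c).out = _
    rw [this]
  let F : C → Q := fun e => (w ^ (i (e * c⁻¹) + 1)).left e
  let β : C → Q := fun d => b (F (δ d)) * (w ^ (i d)).left (δ d)
  have hw : ∀ (n : ℕ) (e : C), (w ^ (n + 1)).left e = (w ^ n).left e * w.left (e * c ^ n) := by
    intro n e
    rw [pow_succ, W.mul_left_apply, W.pow_right]
  refine ⟨⟨β, 1⟩, fun d => ?_⟩
  have h1 : ((⟨β, 1⟩ : W C Q) * w * (⟨β, 1⟩ : W C Q)⁻¹).left d = β d * w.left d * (β (d * c))⁻¹ := by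
    rw [W.mul_left_apply, W.mul_left_apply, W.inv_left_apply, SemidirectProduct.mul_right]
    simp [hc]
  rw [h1]
  have h2 : (w ^ (i d + 1)).left (δ d) = (w ^ (i d)).left (δ d) * w.left d := by
    rw [hw, hi]
  by_cases hd : d * c = δ d
  · right
    have h3 : i (d * c) = 0 := by
      have := hi' (d * c) 0 (by rw [hδc, pow_zero, mul_one, hd])
      omega
    have h4 : F (δ d) = (w ^ (i d + 1)).left (δ d) := by
      show (w ^ (i (δ d * c⁻¹) + 1)).left (δ d) = _
      rw [← hd, mul_inv_cancel_right]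
    have h5 : β (d * c) = b (F (δ d)) := by
      show b (F (δ (d * c))) * (w ^ (i (d * c))).left (δ (d * c)) = _
      rw [h3, hδc, pow_zero]
      exact mul_one _
    rw [h5]
    have h6 : β d * w.left d = b (F (δ d)) * F (δ d) := by
      show b (F (δ d)) * (w ^ (i d)).left (δ d) * w.left d = _
      rw [mul_assoc, ← h2, ← h4]
    rw [h6]
    exact hb _
  · left
    have h3 : i (d * c) = i d + 1 := by
      apply le_antisymm
      · apply hi'
        rw [hδc, pow_succ, ← mul_assoc, hi]
      · have h4 := hi (d * c)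
        rw [hδc] at h4
        rcases Nat.eq_zero_or_pos (i (d * c)) with h0 | h0
        · rw [h0, pow_zero, mul_one] at h4
          exact absurd h4.symm hd
        · obtain ⟨m, hm⟩ : ∃ m, i (d * c) = m + 1 := ⟨i (d * c) - 1, by omega⟩
          rw [hm, pow_succ, ← mul_assoc] at h4
          have h5 := hi' d m (mul_right_cancel h4)
          omega
    have h5 : β (d * c) = β d * w.left d := by
      show b (F (δ (d * c))) * (w ^ (i (d * c))).left (δ (d * c)) =
        b (F (δ d)) * (w ^ (i d)).left (δ d) * w.left d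
      rw [h3, hδc, h2, mul_assoc]
    rw [h5, mul_inv_cancel]

/-- A regular wreath product of a group with finitely many conjugacy classes by a finite group has
finitely many conjugacy classes. -/
theorem finite_conj_wreath [Finite C] [Finite (ConjClasses Q)] : Finite (ConjClasses (W C Q)) := by
  classical
  have hfin : Finite (Quotient (IsConj.setoid Q)) := ‹Finite (ConjClasses Q)›
  let R : Set Q := Set.range (Quotient.out : ConjClasses Q → Q)
  have hRf : R.Finite := Set.finite_range _
  have hR : ∀ q : Q, ∃ b : Q, b * q * b⁻¹ ∈ R := by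
    intro q
    have h1 : ConjClasses.mk (Quotient.out (ConjClasses.mk q)) = ConjClasses.mk q :=
      Quotient.out_eq _
    have h2 := ConjClasses.mk_eq_mk_iff_isConj.1 h1.symm
    obtain ⟨b, hb⟩ := isConj_iff.1 h2
    exact ⟨b, ⟨_, hb.symm⟩⟩
  have hR' : (insert 1 R : Set Q).Finite := hRf.insert 1
  have := hR'.to_subtype
  let Φ : (C → (insert 1 R : Set Q)) × C → ConjClasses (W C Q) := fun p =>
    ConjClasses.mk ⟨fun c => (p.1 c : Q), p.2⟩
  refine Finite.of_surjective Φ ?_
  intro κ
  obtain ⟨w, rfl⟩ := ConjClasses.mk_surjective κ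
  obtain ⟨v, hv⟩ := exists_conj_form R hR w
  refine ⟨⟨fun c => ⟨(v * w * v⁻¹).left c, ?_⟩, (v * w * v⁻¹).right⟩, ?_⟩
  · rcases hv c with h | h
    · rw [h]; exact Set.mem_insert _ _
    · exact Set.mem_insert_of_mem _ h
  · show ConjClasses.mk (v * w * v⁻¹) = _
    rw [eq_comm, ConjClasses.mk_eq_mk_iff_isConj, isConj_iff]
    exact ⟨v, rfl⟩

end Wreath

section Core

variable {G : Type u} [Group G]

theorem finite_conj_sub [Finite (ConjClasses G)] (N : Subgroup G) [hN : N.Normal]
    [N.FiniteIndex] : Finite (ConjClasses N) := by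
  classical
  have hr : ∀ κ : ConjClasses G, ∃ r : N, (∃ x : N, ConjClasses.mk (x : G) = κ) →
      ConjClasses.mk (r : G) = κ := by
    intro κ
    by_cases h : ∃ x : N, ConjClasses.mk (x : G) = κ
    · obtain ⟨x, hx⟩ := h
      exact ⟨x, fun _ => hx⟩
    · exact ⟨1, fun h' => absurd h' h⟩
  choose r hr using hr
  let Φ : ConjClasses G × (G ⧸ N) → ConjClasses N := fun p =>
    ConjClasses.mk ⟨p.2.out * (r p.1 : G) * p.2.out⁻¹, hN.conj_mem _ (r p.1).2 _⟩
  have : Finite (G ⧸ N) := finite_quotient_of_finiteIndex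
  refine Finite.of_surjective Φ ?_
  intro κ
  obtain ⟨n, rfl⟩ := ConjClasses.mk_surjective κ
  obtain ⟨r0, hr0, h1⟩ : ∃ r0 : N, r (ConjClasses.mk (n : G)) = r0 ∧
    ConjClasses.mk (r0 : G) = ConjClasses.mk (n : G) := ⟨_, rfl, hr (ConjClasses.mk (n : G)) ⟨n, rfl⟩⟩
  obtain ⟨h, hh⟩ := isConj_iff.1 (ConjClasses.mk_eq_mk_iff_isConj.1 h1)
  refine ⟨⟨ConjClasses.mk (n : G), QuotientGroup.mk h⟩, ?_⟩
  set t := (QuotientGroup.mk h : G ⧸ N).out with ht
  have h2 : h⁻¹ * t ∈ N := by
    have h3 : (QuotientGroup.mk t : G ⧸ N) = QuotientGroup.mk h := Quotient.out_eq' _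
    exact QuotientGroup.eq.1 h3.symm
  show ConjClasses.mk (⟨t * (r (ConjClasses.mk (n : G)) : G) * t⁻¹, _⟩ : N) = _
  rw [ConjClasses.mk_eq_mk_iff_isConj, isConj_iff]
  have h4 : h * t⁻¹ ∈ N := by
    have h5 := hN.conj_mem _ (inv_mem h2) t
    have h6 : t * (h⁻¹ * t)⁻¹ * t⁻¹ = h * t⁻¹ * 1 := by
      have : t * (h⁻¹ * t)⁻¹ * t⁻¹ = h * t⁻¹ := by group
      rw [this, mul_one]
    rwa [h6, mul_one] at h5
  refine ⟨⟨h * t⁻¹, h4⟩, ?_⟩
  apply Subtype.ext
  show h * t⁻¹ * (t * (r (ConjClasses.mk (n : G)) : G) * t⁻¹) * (h * t⁻¹)⁻¹ = n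
  rw [hr0, ← hh]
  group

theorem finite_normals [Finite (ConjClasses G)] : Finite {N : Subgroup G // N.Normal} := by
  let Φ : {N : Subgroup G // N.Normal} → Set (ConjClasses G) := fun N =>
    {κ | ∃ x ∈ N.1, ConjClasses.mk x = κ}
  refine Finite.of_injective Φ ?_
  have key : ∀ N M : {N : Subgroup G // N.Normal}, Φ N = Φ M → N.1 ≤ M.1 := by
    intro N M h x hx
    have h1 : ConjClasses.mk x ∈ Φ M := by
      rw [← h]
      exact ⟨x, hx, rfl⟩
    obtain ⟨y, hy, hyx⟩ := h1
    obtain ⟨c, hc⟩ := isConj_iff.1 (ConjClasses.mk_eq_mk_iff_isConj.1 hyx)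
    rw [← hc]
    exact M.2.conj_mem _ hy _
  intro N M h
  exact Subtype.ext (le_antisymm (key N M h) (key M N h.symm))

/-- A group with finitely many conjugacy classes has a perfect normal subgroup of finite index. -/
theorem exists_perfect [Finite (ConjClasses G)] :
    ∃ N : Subgroup G, N.Normal ∧ N.FiniteIndex ∧ commutator N = ⊤ := by
  classical
  have := finite_normals (G := G)
  let I := {N : Subgroup G // N.Normal ∧ N.FiniteIndex}
  have hI : Finite I := Finite.of_injective
    (fun N : I => (⟨N.1, N.2.1⟩ : {N : Subgroup G // N.Normal})) (by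
      intro a b h
      exact Subtype.ext (congrArg (fun z : {N : Subgroup G // N.Normal} => z.1) h))
  let N : Subgroup G := ⨅ M : I, M.1
  have hN : N.Normal := normal_iInf_normal fun M : I => M.2.1
  have hNf : N.FiniteIndex := finiteIndex_iInf fun M : I => M.2.2
  refine ⟨N, hN, hNf, ?_⟩
  have hc : Finite (ConjClasses N) := finite_conj_sub N
  have hab : Finite (Abelianization N) := by
    let Φ : ConjClasses N → Abelianization N := fun κ =>
      Quotient.liftOn κ (fun x => (Abelianization.of x : Abelianization N)) (by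
        intro a b hab
        obtain ⟨c, hc⟩ := isConj_iff.1 hab
        rw [← hc, map_mul, map_mul, map_inv, mul_right_comm, mul_inv_cancel, one_mul])
    refine Finite.of_surjective Φ ?_
    intro a
    obtain ⟨x, rfl⟩ := QuotientGroup.mk'_surjective (commutator N) a
    exact ⟨ConjClasses.mk x, rfl⟩
  have hcf : (commutator N).FiniteIndex := by
    have : Finite (N ⧸ commutator N) := hab
    exact finiteIndex_of_finite_quotient
  have hmap : (commutator N).map N.subtype = ⁅N, N⁆ := map_subtype_commutator N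
  have hnorm : (⁅N, N⁆ : Subgroup G).Normal := inferInstance
  have hfin : (⁅N, N⁆ : Subgroup G).FiniteIndex := by
    rw [← hmap]
    refine ⟨?_⟩
    rw [index_map_subtype]
    exact mul_ne_zero hcf.index_ne_zero hNf.index_ne_zero
  have hle : N ≤ ⁅N, N⁆ := iInf_le (fun M : I => M.1) ⟨⁅N, N⁆, hnorm, hfin⟩
  rw [eq_top_iff]
  intro x _
  have h1 : (x : G) ∈ (commutator N).map N.subtype := by
    rw [hmap]
    exact hle x.2
  obtain ⟨y, hy, hyx⟩ := h1
  have h2 : y = x := Subtype.ext hyx
  rwa [← h2]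

end Core

/-- A finitely generated divisible group is perfect. -/
theorem perfect_of_divisible {G : Type u} [Group G] [Group.FG G]
    (h : ∀ x : G, ∀ m : ℕ, 1 ≤ m → ∃ y : G, y ^ m = x) : commutator G = ⊤ := by
  have h1 : Group.FG (Abelianization G) :=
    Group.fg_of_surjective (f := Abelianization.of) (QuotientGroup.mk'_surjective _)
  have h2 : ∀ a : Additive (Abelianization G), ∀ m : ℕ, 1 ≤ m → ∃ b, m • b = a := by
    intro a m hm
    obtain ⟨x, hx⟩ := QuotientGroup.mk'_surjective (commutator G) (Additive.toMul a)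
    obtain ⟨y, hy⟩ := h x m hm
    refine ⟨Additive.ofMul (Abelianization.of y), ?_⟩
    apply Additive.toMul.injective
    rw [toMul_nsmul]
    show (Abelianization.of y) ^ m = Additive.toMul a
    rw [← map_pow, hy]
    exact hx
  have h3 : AddMonoid.FG (Additive (Abelianization G)) := by
    rw [← AddGroup.fg_iff_addMonoid_fg, ← GroupFG.iff_add_fg]
    exact h1
  have h4 : Module.Finite ℤ (Additive (Abelianization G)) :=
    Module.Finite.iff_addGroup_fg.2 (AddGroup.fg_iff_addMonoid_fg.2 h3)
  obtain ⟨r, hr, hr0⟩ := Submodule.exists_sub_one_mem_and_smul_eq_zero_of_fg_of_le_smul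
    (Ideal.span {(2 : ℤ)}) (⊤ : Submodule ℤ (Additive (Abelianization G))) h4.fg_top (by
      intro a _
      obtain ⟨b, hb⟩ := h2 a 2 (by norm_num)
      rw [← hb, ← natCast_zsmul]
      exact Submodule.smul_mem_smul (Ideal.subset_span (by simp)) trivial)
  have hr1 : r ≠ 0 := by
    rintro rfl
    rw [Ideal.mem_span_singleton] at hr
    omega
  have h5 : ∀ a : Additive (Abelianization G), a = 0 := by
    intro a
    obtain ⟨b, hb⟩ := h2 a r.natAbs (by omega)
    rw [← hb, ← natCast_zsmul]
    rcases Int.natAbs_eq r with h | h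
    · rw [← h]
      exact hr0 b trivial
    · have h6 : ((r.natAbs : ℕ) : ℤ) = -r := by omega
      rw [h6, neg_smul, hr0 b trivial, neg_zero]
  rw [eq_top_iff]
  intro x _
  have h6 := h5 (Additive.ofMul (Abelianization.of x))
  have h7 : (Abelianization.of x : Abelianization G) = 1 := h6
  exact (QuotientGroup.eq_one_iff _).1 h7

end Pool.Agent.U613.MG
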