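import Pool.Agent.U613.MG.Img
import Pool.Agent.U613.MG.Conj

/-!
# Quotients of the modular group
-/

set_option autoImplicit false

namespace Pool.Agent.U613.MG

open Pool.Agent.U613.PO Subgroup

universe u

/-- `⟨x, y | x² = y³ = 1⟩` -/
abbrev Gam : Type :=
  PresentedGroup ({FreeGroup.of 0 ^ 2, FreeGroup.of 1 ^ 3} : Set (FreeGroup (Fin 2)))

section

variable {Q : Type u} [Group Q] {k : ℕ} (g : Fin k → Q)

theorem rels_ok (r : FreeGroup (Fin 2))
    (hr : r ∈ ({FreeGroup.of 0 ^ 2, FreeGroup.of 1 ^ 3} : Set (FreeGroup (Fin 2)))) :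
    FreeGroup.lift ![(pk k).X (lab g), (pk k).Y] r = 1 := by
  rcases hr with rfl | hr
  · rw [map_pow, FreeGroup.lift_apply_of, pow_two]
    exact (pk k).X_sq (lab g)
  · rw [Set.mem_singleton_iff] at hr
    subst hr
    rw [map_pow, FreeGroup.lift_apply_of, pow_succ, pow_two]
    exact (pk k).Y_cube

/-- the homomorphism of the modular group to the wreath product -/
noncomputable def phi : Gam →* W (Ck k) Q := PresentedGroup.toGroup (rels_ok g)

theorem phi_range : (phi g).range = PP g := by
  rw [MonoidHom.range_eq_map, ← PresentedGroup.closure_range_of, MonoidHom.map_closure]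
  show _ = closure {(pk k).X (lab g), (pk k).Y}
  congr 1
  ext w
  constructor
  · rintro ⟨_, ⟨i, rfl⟩, rfl⟩
    rw [phi, PresentedGroup.toGroup.of]
    fin_cases i
    · exact Or.inl rfl
    · exact Or.inr rfl
  · rintro (rfl | hw)
    · refine ⟨_, ⟨0, rfl⟩, ?_⟩
      rw [phi, PresentedGroup.toGroup.of]
      rfl
    · rw [Set.mem_singleton_iff] at hw
      subst hw
      refine ⟨_, ⟨1, rfl⟩, ?_⟩
      rw [phi, PresentedGroup.toGroup.of]
      rfl

end

theorem phi_ker {Q : Type} [Group Q] {k : ℕ} (g : Fin k → Q) (hg : closure (Set.range g) = ⊤)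
    [Finite (Abelianization Q)] [Group.IsFinitelyPresented Q] :
    (phi g).ker.IsFinitelyNormallyGenerated := by
  have h1 : Group.IsFinitelyPresented (phi g).range := by
    rw [phi_range]
    exact PP_fp g hg
  have h2 : Group.FG Gam := by
    refine Group.fg_iff.2 ⟨Set.range (PresentedGroup.of), PresentedGroup.closure_range_of _,
      Set.finite_range _⟩
  have h3 := ker_fng (phi g).rangeRestrict (phi g).rangeRestrict_surjective
  rwa [MonoidHom.ker_rangeRestrict] at h3

/-- the isomorphism with the regular wreath product of Mathlib -/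
def toReg (C Q : Type u) [Group C] [Group Q] : W C Q ≃* RegularWreathProduct Q C where
  toFun w := ⟨fun c => w.left c⁻¹, w.right⟩
  invFun w := ⟨fun c => w.left c⁻¹, w.right⟩
  left_inv w := by
    apply SemidirectProduct.ext
    · funext c
      show w.left c⁻¹⁻¹ = _
      rw [inv_inv]
    · rfl
  right_inv w := by
    apply RegularWreathProduct.ext
    · funext c
      show w.left c⁻¹⁻¹ = _
      rw [inv_inv]
    · rfl
  map_mul' a b := by
    apply RegularWreathProduct.ext
    · funext c
      show (a * b).left c⁻¹ = a.left c⁻¹ * b.left (a.right⁻¹ * c)⁻¹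
      rw [W.mul_left_apply, mul_inv_rev, inv_inv]
    · rfl

/-- the wreath product of a torsion group by a finite group is a torsion group -/
theorem W_torsion {C Q : Type u} [Group C] [Group Q] [Finite C] (h : ∀ q : Q, IsOfFinOrder q)
    (w : W C Q) : IsOfFinOrder w := by
  classical
  have := Fintype.ofFinite C
  rw [isOfFinOrder_iff_pow_eq_one]
  have h1 : (w ^ Nat.card C).right = 1 := by rw [W.pow_right, pow_card_eq_one']
  refine ⟨Nat.card C * ∏ c : C, orderOf ((w ^ Nat.card C).left c), ?_, ?_⟩
  · apply Nat.mul_pos Nat.card_pos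
    apply Finset.prod_pos
    intro c _
    exact (h _).orderOf_pos
  · rw [pow_mul]
    apply SemidirectProduct.ext
    · funext c
      rw [W.pow_left_of_right h1]
      exact orderOf_dvd_iff_pow_eq_one.1 (Finset.dvd_prod_of_mem _ (Finset.mem_univ c))
    · rw [W.pow_right, h1, one_pow]
      rfl

/-- generators of a finitely presented group -/
theorem exists_gens {G : Type u} [Group G] (h : Group.IsFinitelyPresented G) :
    ∃ (k : ℕ) (g : Fin k → G), closure (Set.range g) = ⊤ := by
  obtain ⟨m, φ, hφ, -⟩ := h.out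
  refine ⟨m, fun i => φ (FreeGroup.of i), ?_⟩
  have h2 : closure (Set.range (FreeGroup.of : Fin m → FreeGroup (Fin m))) = ⊤ :=
    FreeGroup.closure_range_of _
  have h3 := congrArg (Subgroup.map φ) h2
  rw [MonoidHom.map_closure, ← Set.range_comp, ← MonoidHom.range_eq_map,
    MonoidHom.range_eq_top.2 hφ] at h3
  exact h3

theorem fg_of_fp {G : Type u} [Group G] (h : Group.IsFinitelyPresented G) : Group.FG G := by
  obtain ⟨k, g, hg⟩ := exists_gens h
  exact Group.fg_iff.2 ⟨_, hg, Set.finite_range _⟩

theorem PP_infinite {Q : Type u} [Group Q] [hQ : Infinite Q] {k : ℕ} (g : Fin k → Q)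
    (hg : closure (Set.range g) = ⊤) [Finite (Abelianization Q)] : Infinite (PP g) := by
  by_contra hcon
  rw [not_infinite_iff_finite] at hcon
  have h1 := PP_finiteIndex g hg
  have h2 : Finite (W (Ck k) Q) := by
    apply Nat.finite_of_card_ne_zero
    rw [← card_mul_index (PP g)]
    exact mul_ne_zero Nat.card_pos.ne' h1.index_ne_zero
  have h3 : Finite Q := Finite.of_injective (fun q : Q => (⟨fun _ => q, 1⟩ : W (Ck k) Q)) (by
    intro a b hab
    exact congrFun (congrArg SemidirectProduct.left hab) 1)
  exact not_finite Q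

/-- a finitely presented infinite group with finite abelianization gives a finitely presented
quotient of the modular group -/
theorem exists_quot {Q : Type} [Group Q] [hQ : Infinite Q] (hfp : Group.IsFinitelyPresented Q)
    [Finite (Abelianization Q)] : ∃ (k : ℕ) (g : Fin k → Q), closure (Set.range g) = ⊤ ∧
      ∃ S : Set Gam, S.Finite ∧ Infinite (Gam ⧸ normalClosure S) ∧
        Nonempty ((Gam ⧸ normalClosure S) ≃* PP g) := by
  obtain ⟨k, g, hg⟩ := exists_gens hfp
  obtain ⟨S, hS, hS2⟩ := phi_ker g hg
  have e : (Gam ⧸ normalClosure S) ≃* PP g :=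
    (QuotientGroup.quotientMulEquivOfEq hS2).trans
      ((QuotientGroup.quotientKerEquivRange (phi g)).trans (MulEquiv.subgroupCongr (phi_range g)))
  have h1 := PP_infinite g hg
  exact ⟨k, g, hg, S, hS, Infinite.of_injective e.symm e.symm.injective, ⟨e⟩⟩

end Pool.Agent.U613.MG
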