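import Pool.Agent.U613.MG.Wr

/-!
# Positions in the affine groups `R ⋊ ⟨-ω⟩`, `R = ℤ[ω] / M`

`R = ZMod M × ZMod M` with the basis `1`, `ζ` of the Eisenstein integers, `ζ ^ 2 = ζ - 1`;
`x w = - w + ζ`, `y w = ζ ^ 2 w`; `x y` is a rotation of order `6` about `1`.  The positions are the
translations by `3 ^ (i + 1)`.
-/

set_option autoImplicit false

namespace Pool.Agent.U613.MG

open Pool.Agent.U613.PO

theorem sidon_aux {a b c d : ℕ} (hab : a ≤ b) (hcd : c ≤ d) (h : 3 ^ a + 3 ^ b = 3 ^ c + 3 ^ d) :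
    a = c ∧ b = d := by
  have h1 : 3 ^ a ≤ 3 ^ b := Nat.pow_le_pow_right (by norm_num) hab
  have h2 : 3 ^ c ≤ 3 ^ d := Nat.pow_le_pow_right (by norm_num) hcd
  have h3 : 0 < 3 ^ a := by positivity
  have h4 : 0 < 3 ^ c := by positivity
  have hbd : b = d := by
    rcases lt_trichotomy b d with hlt | heq | hgt
    · have h5 : 3 ^ (b + 1) ≤ 3 ^ d := Nat.pow_le_pow_right (by norm_num) hlt
      rw [pow_succ] at h5
      omega
    · exact heq
    · have h5 : 3 ^ (d + 1) ≤ 3 ^ b := Nat.pow_le_pow_right (by norm_num) hgt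
      rw [pow_succ] at h5
      omega
  subst hbd
  exact ⟨Nat.pow_right_injective (le_refl 3 |>.trans' (by norm_num)) (Nat.add_right_cancel h), rfl⟩

theorem sidon {a b c d : ℕ} (h : 3 ^ a + 3 ^ b = 3 ^ c + 3 ^ d) :
    (a = c ∧ b = d) ∨ (a = d ∧ b = c) := by
  rcases le_total a b with h1 | h1 <;> rcases le_total c d with h2 | h2
  · exact Or.inl (sidon_aux h1 h2 h)
  · have := sidon_aux h1 h2 (by omega)
    exact Or.inr this
  · have := sidon_aux h1 h2 (by omega)
    exact Or.inr ⟨this.2, this.1⟩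
  · have := sidon_aux h1 h2 (by omega)
    exact Or.inl ⟨this.2, this.1⟩

/-- the modulus -/
def M (n : ℕ) : ℕ := 9 * 3 ^ n + 30

instance (n : ℕ) : NeZero (M n) := ⟨by unfold M; omega⟩

/-- the ring of Eisenstein integers modulo `M` -/
abbrev R (n : ℕ) : Type := ZMod (M n) × ZMod (M n)

variable (n : ℕ)

/-- the rotation by `π` about `ζ / 2` -/
def rx : Equiv.Perm (R n) where
  toFun w := (-w.1, 1 - w.2)
  invFun w := (-w.1, 1 - w.2)
  left_inv w := by ext <;> simp
  right_inv w := by ext <;> simp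

/-- the rotation of order three about `0` -/
def ry : Equiv.Perm (R n) where
  toFun w := (-w.1 - w.2, w.1)
  invFun w := (w.2, -w.1 - w.2)
  left_inv w := by
    ext
    · rfl
    · change -(-w.1 - w.2) - w.1 = w.2
      ring
  right_inv w := by
    ext
    · change -w.2 - (-w.1 - w.2) = w.1
      ring
    · rfl

/-- the group generated by the two rotations -/
abbrev Cg : Type := ↥(Subgroup.closure {rx n, ry n} : Subgroup (Equiv.Perm (R n)))

instance : Finite (Cg n) := inferInstance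

/-- `x` as an element of the group -/
def cx : Cg n := ⟨rx n, Subgroup.subset_closure (Or.inl rfl)⟩

/-- `y` as an element of the group -/
def cy : Cg n := ⟨ry n, Subgroup.subset_closure (Or.inr rfl)⟩

theorem cx_apply (w : R n) : (cx n : Equiv.Perm (R n)) w = (-w.1, 1 - w.2) := rfl

theorem cy_apply (w : R n) : (cy n : Equiv.Perm (R n)) w = (-w.1 - w.2, w.1) := rfl

theorem cy_inv_apply (w : R n) : ((cy n)⁻¹ : Cg n).1 w = (w.2, -w.1 - w.2) := rfl

theorem cx_inv_apply (w : R n) : ((cx n)⁻¹ : Cg n).1 w = (-w.1, 1 - w.2) := rfl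

theorem mul_apply' (a b : Cg n) (w : R n) : (a * b : Cg n).1 w = a.1 (b.1 w) := rfl

/-- the translation by `1 + ζ` -/
def ct : Cg n := cx n * (cy n * (cx n * (cy n)⁻¹))

theorem ct_apply (w : R n) : (ct n).1 w = (w.1 + 1, w.2 + 1) := by
  rw [ct, mul_apply', mul_apply', mul_apply', cy_inv_apply, cx_apply, cy_apply, cx_apply]
  ext <;> simp <;> ring

theorem ct_inv_apply (w : R n) : ((ct n)⁻¹ : Cg n).1 w = (w.1 - 1, w.2 - 1) := by
  have h : (ct n).1 (w.1 - 1, w.2 - 1) = w := by rw [ct_apply]; simp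
  change ((ct n).1)⁻¹ w = _
  rw [Equiv.Perm.inv_eq_iff_eq, h]

/-- the translation by `3` -/
def c3 : Cg n := ct n * (cy n * ((ct n)⁻¹ * (cy n)⁻¹))

theorem c3_apply (w : R n) : (c3 n).1 w = (w.1 + 3, w.2) := by
  rw [c3, mul_apply', mul_apply', mul_apply', cy_inv_apply, ct_inv_apply, cy_apply, ct_apply]
  ext
  · simp; ring
  · simp

theorem c3_pow_apply (k : ℕ) (w : R n) : ((c3 n) ^ k).1 w = (w.1 + 3 * k, w.2) := by
  induction k generalizing w with
  | zero => simp
  | succ k ih =>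
    rw [pow_succ, mul_apply', c3_apply, ih]
    ext
    · push_cast; ring
    · rfl

theorem c3_pow_inv_apply (k : ℕ) (w : R n) : (((c3 n) ^ k)⁻¹ : Cg n).1 w = (w.1 - 3 * k, w.2) := by
  have h : ((c3 n) ^ k).1 (w.1 - 3 * k, w.2) = w := by rw [c3_pow_apply]; simp
  change (((c3 n) ^ k).1)⁻¹ w = _
  rw [Equiv.Perm.inv_eq_iff_eq, h]

/-- the positions -/
def ca (i : Fin n) : Cg n := (c3 n) ^ (3 ^ (i : ℕ))

/-- multiplication by `ζ` -/
def T (w : R n) : R n := (-w.2, w.1 + w.2)

theorem T6 (w : R n) : (T n)^[6] w = w := by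
  simp only [Function.iterate_succ, Function.iterate_zero, Function.comp_apply, id, T]
  ext <;> simp <;> ring

theorem T_mod (r : ℕ) (w : R n) : (T n)^[r] w = (T n)^[r % 6] w := by
  conv_lhs => rw [← Nat.mod_add_div r 6]
  rw [Function.iterate_add_apply, Function.iterate_mul]
  congr 1
  have : ((T n)^[6]) = id := by funext w; exact T6 n w
  rw [this, Function.iterate_id]
  rfl

/-- the elements of the group are affine maps -/
theorem aff (c : Cg n) : ∃ r < 6, ∀ w w' : R n, c.1 w - c.1 w' = (T n)^[r] (w - w') := by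
  have key : ∀ c ∈ (Subgroup.closure {rx n, ry n} : Subgroup (Equiv.Perm (R n))),
      ∃ r : ℕ, ∀ w w' : R n, c w - c w' = (T n)^[r] (w - w') := by
    intro c hc
    induction hc using Subgroup.closure_induction with
    | mem c hc =>
      rcases hc with rfl | hc
      · refine ⟨3, fun w w' => ?_⟩
        simp only [rx, Function.iterate_succ, Function.iterate_zero, Function.comp_apply, id, T,
          Equiv.coe_fn_mk]
        ext <;> simp <;> ring
      · rw [Set.mem_singleton_iff] at hc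
        subst hc
        refine ⟨2, fun w w' => ?_⟩
        simp only [ry, Function.iterate_succ, Function.iterate_zero, Function.comp_apply, id, T,
          Equiv.coe_fn_mk]
        ext <;> simp <;> ring
    | one => exact ⟨0, fun w w' => rfl⟩
    | mul c d _ _ hc hd =>
      obtain ⟨r, hr⟩ := hc
      obtain ⟨s, hs⟩ := hd
      refine ⟨r + s, fun w w' => ?_⟩
      rw [Equiv.Perm.mul_apply, Equiv.Perm.mul_apply, hr, hs, Function.iterate_add_apply]
    | inv c _ hc =>
      obtain ⟨r, hr⟩ := hc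
      refine ⟨5 * r, fun w w' => ?_⟩
      have h1 := hr (c⁻¹ w) (c⁻¹ w')
      have h2 : ∀ v, c (c⁻¹ v) = v := fun v => Equiv.apply_symm_apply c v
      rw [h2, h2] at h1
      rw [h1, ← Function.iterate_add_apply, T_mod]
      have : (5 * r + r) % 6 = 0 := by omega
      rw [this]
      rfl
  obtain ⟨r, hr⟩ := key c.1 c.2
  refine ⟨r % 6, Nat.mod_lt _ (by norm_num), fun w w' => ?_⟩
  rw [hr, T_mod]

/-- the centre of the face of `c` -/
def cen (c : Cg n) : R n := c.1 (1, 0)

theorem z_apply (w : R n) : (cx n * cy n).1 w = (w.1 + w.2, 1 - w.1) := by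
  rw [mul_apply', cy_apply, cx_apply]
  ext <;> simp <;> ring

theorem cen_z (c : Cg n) : cen n (c * (cx n * cy n)) = cen n c := by
  rw [cen, mul_apply', z_apply, cen]
  congr 1
  ext <;> simp

theorem cen_ca (i : Fin n) : cen n (ca n i) = (3 * 3 ^ (i : ℕ) + 1, 0) := by
  rw [cen, ca, c3_pow_apply]
  ext
  · push_cast; ring
  · rfl

theorem cen_cax (i : Fin n) : cen n (ca n i * cx n) = (3 * 3 ^ (i : ℕ) - 1, 1) := by
  rw [cen, mul_apply', ca, c3_pow_apply, cx_apply]
  ext
  · push_cast; ring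
  · simp

/-- small integers are determined by their residues -/
theorem eq_of_cast {a b : ℤ} (h : (a : ZMod (M n)) = (b : ZMod (M n))) (hlt : |a - b| < M n) :
    a = b := by
  have h1 : ((M n : ℕ) : ℤ) ∣ b - a := (ZMod.intCast_eq_intCast_iff_dvd_sub a b _).1 h
  have h2 : |b - a| < (M n : ℤ) := by rwa [abs_sub_comm]
  have := Int.eq_zero_of_abs_lt_dvd h1 h2
  omega

theorem pow_le (i : Fin n) : (3 : ℤ) * 3 ^ (i : ℕ) ≤ 3 ^ n := by
  have h : 3 ^ ((i : ℕ) + 1) ≤ 3 ^ n := Nat.pow_le_pow_right (by norm_num) i.2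
  rw [pow_succ] at h
  have h' : ((3 ^ (i : ℕ) * 3 : ℕ) : ℤ) ≤ ((3 ^ n : ℕ) : ℤ) := by exact_mod_cast h
  push_cast at h'
  linarith

theorem M_cast : ((M n : ℕ) : ℤ) = 9 * 3 ^ n + 30 := by
  unfold M; push_cast; ring

end Pool.Agent.U613.MG
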