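import Pool.Agent.Helper376.FP
import Pool.Agent.V11238.MG.FP

/-!
# Finite presentability of overgroups of finite index and of finite powers
-/

set_option autoImplicit false

namespace Pool.Agent.U613.MG

open Subgroup

universe u v

/-- The kernel of a homomorphism from a finitely generated group onto a finitely presented group is
the normal closure of a finite set. -/
theorem ker_fng {A : Type u} {B : Type v} [Group A] [Group B] [hA : Group.FG A]
    [hB : Group.IsFinitelyPresented B] (f : A →* B) (hf : Function.Surjective f) :
    f.ker.IsFinitelyNormallyGenerated := by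
  classical
  obtain ⟨n, φ, hφ, S, hSf, hS⟩ := hB.out
  obtain ⟨T, hT, hTf⟩ := Group.fg_iff.1 hA
  choose g hg using hf
  let α : FreeGroup (Fin n) →* A := FreeGroup.lift fun i => g (φ (FreeGroup.of i))
  have hα : ∀ w, f (α w) = φ w := by
    intro w
    have : f.comp α = φ := by
      apply FreeGroup.ext_hom
      intro i
      rw [MonoidHom.comp_apply, FreeGroup.lift_apply_of, hg]
    exact DFunLike.congr_fun this w
  choose w hw using hφ
  let K : Set A := α '' S ∪ (fun t => t⁻¹ * α (w (f t))) '' T
  refine ⟨K, (hSf.image _).union (hTf.image _), ?_⟩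
  apply le_antisymm
  · apply normalClosure_le_normal
    rintro _ (⟨s, hs, rfl⟩ | ⟨t, ht, rfl⟩)
    · rw [SetLike.mem_coe, MonoidHom.mem_ker, hα, ← MonoidHom.mem_ker, ← hS]
      exact subset_normalClosure hs
    · rw [SetLike.mem_coe, MonoidHom.mem_ker]
      change f (t⁻¹ * α (w (f t))) = 1
      rw [map_mul, map_inv, hα, hw, inv_mul_cancel]
  · let π := QuotientGroup.mk' (normalClosure K)
    -- every element is congruent to an element of the image of `α`
    have h1 : ∀ a : A, ∃ v, π a = π (α v) := by
      intro a
      have ha : a ∈ closure T := by rw [hT]; trivial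
      induction ha using closure_induction with
      | mem t ht =>
        refine ⟨w (f t), ?_⟩
        have h2 : t⁻¹ * α (w (f t)) ∈ normalClosure K :=
          subset_normalClosure (Or.inr ⟨t, ht, rfl⟩)
        exact QuotientGroup.eq.2 h2
      | one => exact ⟨1, by rw [map_one, map_one, map_one]⟩
      | mul a b _ _ ha hb =>
        obtain ⟨v, hv⟩ := ha
        obtain ⟨v', hv'⟩ := hb
        exact ⟨v * v', by rw [map_mul, map_mul, map_mul, hv, hv']⟩
      | inv a _ ha =>
        obtain ⟨v, hv⟩ := ha
        exact ⟨v⁻¹, by rw [map_inv, map_inv, map_inv, hv]⟩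
    intro a ha
    obtain ⟨v, hv⟩ := h1 a
    have h2 : normalClosure K ≤ f.ker := by
      apply normalClosure_le_normal
      rintro _ (⟨s, hs, rfl⟩ | ⟨t, ht, rfl⟩)
      · rw [SetLike.mem_coe, MonoidHom.mem_ker, hα, ← MonoidHom.mem_ker, ← hS]
        exact subset_normalClosure hs
      · rw [SetLike.mem_coe, MonoidHom.mem_ker]
        change f (t⁻¹ * α (w (f t))) = 1
        rw [map_mul, map_inv, hα, hw, inv_mul_cancel]
    have h3 : a⁻¹ * α v ∈ normalClosure K := QuotientGroup.eq.1 hv
    have h4 : f (α v) = 1 := by
      have := h2 h3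
      rw [MonoidHom.mem_ker, map_mul, map_inv, (MonoidHom.mem_ker).1 ha, inv_one, one_mul] at this
      exact this
    have h5 : v ∈ normalClosure S := by
      rw [hS, MonoidHom.mem_ker, ← hα, h4]
    have h6 : α v ∈ normalClosure K := by
      have h7 : normalClosure S ≤ (normalClosure K).comap α := by
        apply normalClosure_le_normal
        intro s hs
        exact subset_normalClosure (Or.inl ⟨s, hs, rfl⟩)
      exact h7 h5
    have h8 := mul_mem h6 (inv_mem h3)
    have h9 : α v * (a⁻¹ * α v)⁻¹ = a := by group
    rwa [h9] at h8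

/-- A finitely generated group with a finitely presented subgroup of finite index is finitely
presented. -/
theorem fp_of_sub {E : Type u} [Group E] [hE : Group.FG E] (N : Subgroup E)
    [hN : N.FiniteIndex] (hfp : Group.IsFinitelyPresented N) : Group.IsFinitelyPresented E := by
  classical
  obtain ⟨α, hα, φ, hφ⟩ := Group.fg_iff_exists_freeGroup_hom_surjective_finite.1 hE
  let N' : Subgroup (FreeGroup α) := N.comap φ
  have hfi : N'.FiniteIndex := by
    refine ⟨?_⟩
    rw [N.index_comap_of_surjective hφ]
    exact hN.index_ne_zero
  have hfg : Group.FG N' := inferInstance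
  let ψ : N' →* N := (φ.comp N'.subtype).codRestrict N fun x => x.2
  have hψ : Function.Surjective ψ := by
    rintro ⟨h, hh⟩
    obtain ⟨w, rfl⟩ := hφ h
    exact ⟨⟨w, hh⟩, rfl⟩
  obtain ⟨S, hSf, hS⟩ := ker_fng ψ hψ
  have hker : φ.ker = normalClosure (N'.subtype '' S) := by
    apply le_antisymm
    · intro w hw
      have hw1 : φ w = 1 := hw
      have hw2 : w ∈ N' := by
        show φ w ∈ N
        rw [hw1]
        exact one_mem _
      have hw3 : (⟨w, hw2⟩ : N') ∈ ψ.ker := by
        rw [MonoidHom.mem_ker]
        apply Subtype.ext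
        exact hw1
      rw [← hS] at hw3
      have h1 : normalClosure S ≤ (normalClosure (N'.subtype '' S)).comap N'.subtype := by
        apply normalClosure_le_normal
        intro s hs
        exact subset_normalClosure ⟨s, hs, rfl⟩
      exact h1 hw3
    · apply normalClosure_le_normal
      rintro _ ⟨s, hs, rfl⟩
      have h1 : s ∈ ψ.ker := by
        rw [← hS]
        exact subset_normalClosure hs
      exact congrArg (fun x : N => (x : E)) h1
  exact Group.IsFinitelyPresented.of_surjective φ hφ ⟨_, hSf.image _, hker.symm⟩

/-- Finite powers of a finitely presented group are finitely presented. -/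
theorem fp_pow {G : Type} [Group G] [hG : Group.IsFinitelyPresented G] (n : ℕ) :
    Group.IsFinitelyPresented (Fin n → G) := by
  induction n with
  | zero => infer_instance
  | succ n ih =>
    have h1 : ∃ A : Set G, A.Finite ∧ closure A = ⊤ := by
      obtain ⟨m, φ, hφ, -⟩ := hG.out
      refine ⟨Set.range fun i => φ (FreeGroup.of i), Set.finite_range _, ?_⟩
      have h2 : closure (Set.range (FreeGroup.of : Fin m → FreeGroup (Fin m))) = ⊤ :=
        FreeGroup.closure_range_of _
      have h3 := congrArg (Subgroup.map φ) h2
      rw [MonoidHom.map_closure, ← Set.range_comp, ← MonoidHom.range_eq_map,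
        MonoidHom.range_eq_top.2 hφ] at h3
      exact h3
    have h2 : ∃ A : Set (Fin n → G), A.Finite ∧ closure A = ⊤ := by
      obtain ⟨m, φ, hφ, -⟩ := ih.out
      refine ⟨Set.range fun i => φ (FreeGroup.of i), Set.finite_range _, ?_⟩
      have h2 : closure (Set.range (FreeGroup.of : Fin m → FreeGroup (Fin m))) = ⊤ :=
        FreeGroup.closure_range_of _
      have h3 := congrArg (Subgroup.map φ) h2
      rw [MonoidHom.map_closure, ← Set.range_comp, ← MonoidHom.range_eq_map,
        MonoidHom.range_eq_top.2 hφ] at h3
      exact h3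
    obtain ⟨A, hA, hA2⟩ := h1
    obtain ⟨B, hB, hB2⟩ := h2
    have h3 : Group.IsFinitelyPresented (G × (Fin n → G)) :=
      Pool.Agent.Helper376.DL.fp_prod hA hB hA2 hB2
    let e : G × (Fin n → G) ≃* (Fin (n + 1) → G) :=
      { toFun := fun p => Fin.cons p.1 p.2
        invFun := fun f => (f 0, Fin.tail f)
        left_inv := fun p => by simp
        right_inv := fun f => Fin.cons_self_tail f
        map_mul' := fun p q => by
          funext i
          refine Fin.cases ?_ (fun j => ?_) i
          · rfl
          · rfl }
    exact Group.IsFinitelyPresented.equiv e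

/-- Finite powers of a finitely presented group are finitely presented. -/
theorem fp_pi {G C : Type} [Group G] [hG : Group.IsFinitelyPresented G] [Finite C] :
    Group.IsFinitelyPresented (C → G) := by
  obtain ⟨n, ⟨e⟩⟩ := Finite.exists_equiv_fin C
  have := fp_pow (G := G) n
  exact Group.IsFinitelyPresented.equiv (MulEquiv.arrowCongr e.symm (MulEquiv.refl G))

end Pool.Agent.U613.MG
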