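import Pool.Agent.U613.MG.Wr

/-!
# Quotients with central commutators
-/

set_option autoImplicit false

namespace Pool.Agent.U613.MG

open scoped commutatorElement
open Subgroup

universe u v

section

variable {A : Type u} [Group A] {ι : Type v} (t : ι → A) (ht : closure (Set.range t) = ⊤)

include ht in
theorem mem_center_of_gen {z : A} (h : ∀ i, z * t i = t i * z) : z ∈ center A := by
  have h1 : closure (Set.range t) ≤ centralizer {z} := by
    rw [closure_le]
    rintro _ ⟨i, rfl⟩
    rw [SetLike.mem_coe, mem_centralizer_singleton_iff]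
    exact (h i).symm
  rw [mem_center_iff]
  intro g
  have h2 : g ∈ centralizer {z} := h1 (by rw [ht]; trivial)
  exact (mem_centralizer_singleton_iff.1 h2)

/-- the commutators of the generators are central: then all commutators are central -/
theorem comm_le_center (ht : closure (Set.range t) = ⊤)
    (h : ∀ i j l, ⁅⁅t i, (t j)⁻¹⁆, t l⁆ = 1) : commutator A ≤ center A := by
  have h1 : ∀ i j, ⁅t i, (t j)⁻¹⁆ ∈ center A := by
    intro i j
    apply mem_center_of_gen t ht
    intro l
    exact commutatorElement_eq_one_iff_mul_comm.1 (h i j l)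
  let π := QuotientGroup.mk' (center A)
  have hπ : closure (Set.range fun i => π (t i)) = ⊤ := by
    have : (Set.range fun i => π (t i)) = π '' Set.range t := by
      rw [← Set.range_comp]; rfl
    rw [this, ← MonoidHom.map_closure, ht]
    exact map_top_of_surjective _ (QuotientGroup.mk'_surjective _)
  have h2 : ∀ i, π (t i) ∈ center (A ⧸ center A) := by
    intro i
    apply mem_center_of_gen _ hπ
    intro j
    have h3 : π ⁅t i, (t j)⁻¹⁆ = 1 := (QuotientGroup.eq_one_iff _).2 (h1 i j)
    rw [map_commutatorElement, map_inv, commutatorElement_eq_one_iff_mul_comm] at h3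
    have h4 : Commute (π (t i)) (π (t j))⁻¹ := h3
    have h5 := h4.inv_right
    rw [inv_inv] at h5
    exact h5
  have h3 : center (A ⧸ center A) = ⊤ := by
    rw [eq_top_iff, ← hπ, closure_le]
    rintro _ ⟨i, rfl⟩
    exact h2 i
  rw [commutator_eq_closure, closure_le]
  rintro _ ⟨a, b, rfl⟩
  rw [SetLike.mem_coe, ← QuotientGroup.eq_one_iff]
  change π ⁅a, b⁆ = 1
  rw [map_commutatorElement, commutatorElement_eq_one_iff_mul_comm]
  have h4 : π a ∈ center (A ⧸ center A) := by rw [h3]; trivial
  exact (mem_center_iff.1 h4 _).symm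

/-- Schur: if the centre has finite index, then there are finitely many commutators. -/
theorem finite_commSet [hf : (center A).FiniteIndex] : Finite (commutatorSet A) := by
  classical
  have : Finite (A ⧸ center A) := finite_quotient_of_finiteIndex
  refine Finite.of_surjective (α := (A ⧸ center A) × (A ⧸ center A))
    (fun p => ⟨⁅p.1.out, p.2.out⁆, ⟨_, _, rfl⟩⟩) ?_
  rintro ⟨_, a, b, rfl⟩
  refine ⟨(QuotientGroup.mk a, QuotientGroup.mk b), Subtype.ext ?_⟩
  obtain ⟨z, hz⟩ := QuotientGroup.mk_out_eq_mul (center A) a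
  obtain ⟨w, hw⟩ := QuotientGroup.mk_out_eq_mul (center A) b
  change ⁅_, _⁆ = ⁅a, b⁆
  rw [hz, hw]
  have hz' := mem_center_iff.1 z.2
  have hw' := mem_center_iff.1 w.2
  rw [commutatorElement_def, commutatorElement_def, mul_inv_rev, mul_inv_rev]
  have e1 : a * (z : A) * (b * w) * ((z : A)⁻¹ * a⁻¹) * ((w : A)⁻¹ * b⁻¹) =
      a * b * ((z : A) * w * (z : A)⁻¹ * (w : A)⁻¹) * a⁻¹ * b⁻¹ := by
    have f1 : ∀ g : A, (z : A) * g = g * z := fun g => (hz' g).symm
    have f2 : ∀ g : A, (w : A) * g = g * w := fun g => (hw' g).symm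
    calc a * (z : A) * (b * w) * ((z : A)⁻¹ * a⁻¹) * ((w : A)⁻¹ * b⁻¹)
        = a * ((z : A) * (b * w)) * (z : A)⁻¹ * a⁻¹ * (w : A)⁻¹ * b⁻¹ := by group
      _ = a * ((b * w) * z) * (z : A)⁻¹ * a⁻¹ * (w : A)⁻¹ * b⁻¹ := by rw [f1]
      _ = a * b * (w * a⁻¹) * (w : A)⁻¹ * b⁻¹ := by group
      _ = a * b * (a⁻¹ * w) * (w : A)⁻¹ * b⁻¹ := by rw [f2]
      _ = a * b * a⁻¹ * b⁻¹ := by group
      _ = a * b * ((z : A) * (w * (z : A)⁻¹) * (w : A)⁻¹) * a⁻¹ * b⁻¹ := by rw [f2]; group
      _ = _ := by group
  have e2 : (z : A) * w * (z : A)⁻¹ * (w : A)⁻¹ = 1 := by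
    rw [← hz' (w : A)]; group
  rw [e1, e2, mul_one]

theorem finite_of_comm_le_center [Finite (Abelianization A)] (h : commutator A ≤ center A) :
    Finite A := by
  have h1 : (commutator A).FiniteIndex := by
    have : Finite (A ⧸ commutator A) := ‹Finite (Abelianization A)›
    exact finiteIndex_of_finite_quotient
  have h2 : (center A).FiniteIndex := finiteIndex_of_le h
  have h3 : Finite (commutatorSet A) := finite_commSet
  have h4 : Finite (commutator A) := inferInstance
  apply Nat.finite_of_card_ne_zero
  rw [← card_mul_index (commutator A)]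
  exact mul_ne_zero Nat.card_pos.ne' h1.index_ne_zero

end

section

variable {Q : Type u} [Group Q] {ι : Type v} (t : ι → Q) (ht : closure (Set.range t) = ⊤)

include ht in
theorem finiteIndex_L [Finite (Abelianization Q)] (L : Subgroup Q) (hL : L.Normal)
    (h : ∀ i j l, ⁅⁅t i, (t j)⁻¹⁆, t l⁆ ∈ L) : L.FiniteIndex := by
  let π := QuotientGroup.mk' L
  have hπ : closure (Set.range fun i => π (t i)) = ⊤ := by
    have : (Set.range fun i => π (t i)) = π '' Set.range t := by
      rw [← Set.range_comp]; rfl
    rw [this, ← MonoidHom.map_closure, ht]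
    exact map_top_of_surjective _ (QuotientGroup.mk'_surjective _)
  have h1 : commutator (Q ⧸ L) ≤ center (Q ⧸ L) := by
    apply comm_le_center (fun i => π (t i)) hπ
    intro i j l
    rw [← map_inv, ← map_commutatorElement, ← map_commutatorElement]
    exact (QuotientGroup.eq_one_iff _).2 (h i j l)
  have h2 : Finite (Abelianization (Q ⧸ L)) := by
    refine Finite.of_surjective (Abelianization.map π) ?_
    intro a
    induction a using QuotientGroup.induction_on with
    | H a =>
      obtain ⟨b, rfl⟩ := QuotientGroup.mk'_surjective L a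
      exact ⟨Abelianization.of b, rfl⟩
  have h3 : Finite (Q ⧸ L) := finite_of_comm_le_center h1
  exact finiteIndex_of_finite_quotient

end

/-- a finitely generated torsion group has a finite abelianization -/
theorem finite_ab_of_torsion {Q : Type u} [Group Q] [Group.FG Q] (h : ∀ q : Q, IsOfFinOrder q) :
    Finite (Abelianization Q) := by
  have h1 : Group.FG (Abelianization Q) :=
    Group.fg_of_surjective (f := Abelianization.of) (QuotientGroup.mk'_surjective _)
  refine CommGroup.finite_of_fg_isMulTorsion _ ?_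
  intro a
  obtain ⟨q, rfl⟩ := QuotientGroup.mk'_surjective (commutator Q) a
  exact (Abelianization.of : Q →* Abelianization Q).isOfFinOrder (h q)

end Pool.Agent.U613.MG
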