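import Pool.Agent.U613.MG.Aff

/-!
# The positions are in general position
-/

set_option autoImplicit false

namespace Pool.Agent.U613.MG

variable (n : ℕ)

theorem one_apply' (w : R n) : (1 : Cg n).1 w = w := rfl

theorem z6 : (cx n * cy n) ^ 6 = 1 := by
  apply Subtype.ext
  apply Equiv.ext
  intro w
  change ((cx n * cy n) ^ 6 : Cg n).1 w = w
  rw [pow_succ, pow_succ, pow_succ, pow_succ, pow_succ, pow_one]
  simp only [mul_apply' n _ (cx n * cy n), z_apply]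
  ext <;> simp <;> ring

theorem cast_small {a b : ℤ} (h : (a : ZMod (M n)) = (b : ZMod (M n))) (hlt : |a - b| < 30) :
    a = b := by
  apply eq_of_cast n h
  rw [M_cast]
  have : (0 : ℤ) < 3 ^ n := by positivity
  linarith

theorem z_ne (r : ℕ) (h0 : 0 < r) (h6 : r < 6) : (cx n * cy n) ^ r ≠ 1 := by
  intro h
  have h1 : ((cx n * cy n) ^ r : Cg n).1 (0, 0) = (0, 0) := by rw [h]; rfl
  have e1 : (cx n * cy n).1 (0, 0) = (0, 1) := by rw [z_apply]; simp
  have e2 : (cx n * cy n).1 (0, 1) = (1, 1) := by rw [z_apply]; simp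
  have e3 : (cx n * cy n).1 (1, 1) = (2, 0) := by rw [z_apply]; norm_num
  have e4 : (cx n * cy n).1 (2, 0) = (2, -1) := by rw [z_apply]; norm_num
  have e5 : (cx n * cy n).1 (2, -1) = (1, -1) := by rw [z_apply]; norm_num
  have hM : ∀ k : ℤ, k ≠ 0 → |k| < 30 → (k : ZMod (M n)) ≠ 0 := by
    intro k hk hk' h
    apply hk
    apply cast_small n (b := 0) (by rw [h]; simp)
    rwa [sub_zero]
  interval_cases r
  · rw [pow_one, e1] at h1
    have h2 := (Prod.ext_iff.1 h1).2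
    exact hM 1 (by norm_num) (by norm_num) (by simpa using h2)
  · rw [pow_succ, pow_one, mul_apply', e1, e2] at h1
    have h2 := (Prod.ext_iff.1 h1).2
    exact hM 1 (by norm_num) (by norm_num) (by simpa using h2)
  · rw [pow_succ, pow_succ, pow_one, mul_apply', mul_apply', e1, e2, e3] at h1
    have h2 := (Prod.ext_iff.1 h1).1
    exact hM 2 (by norm_num) (by norm_num) (by simpa using h2)
  · rw [pow_succ, pow_succ, pow_succ, pow_one, mul_apply', mul_apply', mul_apply', e1, e2, e3,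
      e4] at h1
    have h2 := (Prod.ext_iff.1 h1).1
    exact hM 2 (by norm_num) (by norm_num) (by simpa using h2)
  · rw [pow_succ, pow_succ, pow_succ, pow_succ, pow_one, mul_apply', mul_apply', mul_apply',
      mul_apply', e1, e2, e3, e4, e5] at h1
    have h2 := (Prod.ext_iff.1 h1).1
    exact hM 1 (by norm_num) (by norm_num) (by simpa using h2)

theorem cx_sq : cx n * cx n = 1 := by
  apply Subtype.ext
  apply Equiv.ext
  intro w
  change (cx n).1 ((cx n).1 w) = w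
  rw [cx_apply, cx_apply]
  ext <;> simp

theorem cy_cube : cy n * cy n * cy n = 1 := by
  apply Subtype.ext
  apply Equiv.ext
  intro w
  change (cy n).1 ((cy n).1 ((cy n).1 w)) = w
  rw [cy_apply, cy_apply, cy_apply]
  ext <;> simp <;> ring

theorem c_gen : Subgroup.closure {cx n, cy n} = ⊤ := by
  have h := Subgroup.closure_closure_coe_preimage (k := {rx n, ry n})
  rw [eq_top_iff, ← h, Subgroup.closure_le]
  rintro ⟨c, hc⟩ h1
  apply Subgroup.subset_closure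
  rcases h1 with h1 | h1
  · left; exact Subtype.ext h1
  · right; exact Subtype.ext h1

theorem pow_lt_M (i : Fin n) : (3 : ℤ) * 3 ^ (i : ℕ) ≤ 3 ^ n ∧ (0 : ℤ) < 3 ^ (i : ℕ) :=
  ⟨pow_le n i, by positivity⟩

theorem fst_inj {i j : Fin n} {c : ℤ}
    (h : ((3 * 3 ^ (i : ℕ) + c : ℤ) : ZMod (M n)) = ((3 * 3 ^ (j : ℕ) + c : ℤ) : ZMod (M n))) :
    i = j := by
  have h1 := eq_of_cast n h (by
    rw [M_cast, abs_lt]
    obtain ⟨a1, a2⟩ := pow_lt_M n i
    obtain ⟨b1, b2⟩ := pow_lt_M n j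
    constructor <;> linarith)
  have h2 : (3 : ℤ) ^ (i : ℕ) = 3 ^ (j : ℕ) := by linarith
  have h3 : (3 : ℕ) ^ (i : ℕ) = 3 ^ (j : ℕ) := by exact_mod_cast h2
  exact Fin.ext (Nat.pow_right_injective (by norm_num) h3)

theorem snd_ne : (0 : ZMod (M n)) ≠ 1 := by
  intro h
  have := cast_small n (a := 0) (b := 1) (by simpa using h) (by norm_num)
  omega

theorem ca_inj {i j : Fin n} (h : cen n (ca n i) = cen n (ca n j)) : i = j := by
  rw [cen_ca, cen_ca] at h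
  apply fst_inj n (c := 1)
  push_cast
  exact (Prod.ext_iff.1 h).1

theorem cax_inj {i j : Fin n} (h : cen n (ca n i * cx n) = cen n (ca n j * cx n)) : i = j := by
  rw [cen_cax, cen_cax] at h
  apply fst_inj n (c := -1)
  push_cast
  have := (Prod.ext_iff.1 h).1
  simpa [sub_eq_add_neg] using this

theorem ca_ne {i j : Fin n} : cen n (ca n i) ≠ cen n (ca n j * cx n) := by
  intro h
  rw [cen_ca, cen_cax] at h
  exact snd_ne n (Prod.ext_iff.1 h).2

theorem cen_zpow (c : Cg n) (r : ℕ) : cen n (c * (cx n * cy n) ^ r) = cen n c := by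
  induction r with
  | zero => rw [pow_zero, mul_one]
  | succ r ih => rw [pow_succ, ← mul_assoc, cen_z, ih]

/-- the integral core of the argument -/
theorem core {k m l i j m1 : ℕ} {d d3 d1 : ℤ} (hd : d = 0 ∨ d = 1) (hd3 : d3 = 0 ∨ d3 = 1)
    (hd1 : d1 = 0 ∨ d1 = 1) (hij : i ≠ j) (hil : i ≠ l) (hjl : j ≠ l) {r : ℕ}
    (A B E F G H : ℤ)
    (hA : A = 3 * 3 ^ l - 3 * 3 ^ i) (hB : B = 3 * 3 ^ j - 3 * 3 ^ i)
    (hE : E = 3 * 3 ^ m - 3 * 3 ^ k - 2 * (d3 - d)) (hF : F = d3 - d)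
    (hG : G = 3 * 3 ^ m1 - 3 * 3 ^ k - 2 * (d1 - d)) (hH : H = d1 - d)
    (h : (r = 0 ∧ E = A ∧ F = 0 ∧ G = B - 2 ∧ H = 1) ∨
      (r = 1 ∧ E = 0 ∧ F = A ∧ G = -1 ∧ H = B - 1) ∨
      (r = 2 ∧ E = -A ∧ F = A ∧ G = 1 - B ∧ H = B - 2) ∨
      (r = 3 ∧ E = -A ∧ F = 0 ∧ G = 2 - B ∧ H = -1) ∨
      (r = 4 ∧ E = 0 ∧ F = -A ∧ G = 1 ∧ H = 1 - B) ∨
      (r = 5 ∧ E = A ∧ F = -A ∧ G = B - 1 ∧ H = 2 - B)) : r = 0 ∧ k = i ∧ d = 0 := by
  have hne : (3 : ℤ) ^ l ≠ 3 ^ i := by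
    intro h1
    have h2 : (3 : ℕ) ^ l = 3 ^ i := by exact_mod_cast h1
    exact hil (Nat.pow_right_injective (by norm_num) h2).symm
  have hz : ∀ {a b c e : ℕ}, (3 : ℤ) ^ a + 3 ^ b = 3 ^ c + 3 ^ e →
      (a = c ∧ b = e) ∨ (a = e ∧ b = c) := by
    intro a b c e h1
    exact sidon (by exact_mod_cast h1)
  have hA3 : ∀ t : ℤ, (t = 0 ∨ t = 1 ∨ t = -1) → t ≠ A := by
    intro t ht h1
    rw [hA] at h1
    rcases ht with rfl | rfl | rfl
    · apply hne; linarith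
    · omega
    · omega
  have hF' : F = 0 ∨ F = 1 ∨ F = -1 := by
    rw [hF]
    rcases hd with rfl | rfl <;> rcases hd3 with rfl | rfl <;> norm_num
  have hF'' : -F = 0 ∨ -F = 1 ∨ -F = -1 := by
    rcases hF' with h | h | h <;> rw [h] <;> norm_num
  rcases h with h | h | h | h | h | h
  · obtain ⟨h0, h1, h2, h3, h4⟩ := h
    have e1 : (3 : ℤ) ^ m + 3 ^ i = 3 ^ l + 3 ^ k := by linarith
    rcases hz e1 with ⟨-, h5⟩ | ⟨-, h5⟩
    · refine ⟨h0, h5.symm, ?_⟩
      rw [hH] at h4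
      rcases hd with rfl | rfl
      · rfl
      · rcases hd1 with rfl | rfl <;> norm_num at h4
    · exact absurd h5 hil
  · exact absurd h.2.2.1 (hA3 F hF')
  · exact absurd h.2.2.1 (hA3 F hF')
  · obtain ⟨h0, h1, h2, h3, h4⟩ := h
    have e1 : (3 : ℤ) ^ m + 3 ^ l = 3 ^ i + 3 ^ k := by linarith
    rcases hz e1 with ⟨-, h5⟩ | ⟨-, h5⟩
    · subst h5
      have e2 : (3 : ℤ) ^ m1 + 3 ^ j = 3 ^ l + 3 ^ i := by linarith
      rcases hz e2 with ⟨-, h6⟩ | ⟨-, h6⟩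
      · exact absurd h6.symm hij
      · exact absurd h6 hjl
    · exact absurd h5.symm hil
  · exact absurd (by linarith [h.2.2.1]) (hA3 (-F) hF'')
  · exact absurd (by linarith [h.2.2.1]) (hA3 (-F) hF'')

theorem pt {v : R n} (h : ∃ k, v = cen n (ca n k) ∨ v = cen n (ca n k * cx n)) :
    ∃ (k : Fin n) (d : ℤ), (d = 0 ∨ d = 1) ∧
      v.1 = ((3 * 3 ^ (k : ℕ) + 1 - 2 * d : ℤ) : ZMod (M n)) ∧ v.2 = (d : ZMod (M n)) := by
  obtain ⟨k, rfl | rfl⟩ := h
  · refine ⟨k, 0, Or.inl rfl, ?_, ?_⟩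
    · rw [cen_ca]; push_cast; ring
    · rw [cen_ca]; simp
  · refine ⟨k, 1, Or.inr rfl, ?_, ?_⟩
    · rw [cen_cax]; push_cast; ring
    · rw [cen_cax]; simp

theorem triple (i j l : Fin n) (hij : i ≠ j) (hil : i ≠ l) (hjl : j ≠ l) (c : Cg n)
    (h0 : ∃ k, cen n c = cen n (ca n k) ∨ cen n c = cen n (ca n k * cx n))
    (h1 : ∃ k, cen n (c * ((ca n i)⁻¹ * (ca n j * cx n))) = cen n (ca n k) ∨
      cen n (c * ((ca n i)⁻¹ * (ca n j * cx n))) = cen n (ca n k * cx n))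
    (h3 : ∃ k, cen n (c * ((ca n i)⁻¹ * ca n l)) = cen n (ca n k) ∨
      cen n (c * ((ca n i)⁻¹ * ca n l)) = cen n (ca n k * cx n)) : c = ca n i := by
  obtain ⟨k, d, hd, e1, e2⟩ := pt n h0
  obtain ⟨m1, d1, hd1, f1, f2⟩ := pt n h1
  obtain ⟨m, d3, hd3, g1, g2⟩ := pt n h3
  obtain ⟨r, hr, haff⟩ := aff n c
  set A : ℤ := 3 * 3 ^ (l : ℕ) - 3 * 3 ^ (i : ℕ) with hA
  set B : ℤ := 3 * 3 ^ (j : ℕ) - 3 * 3 ^ (i : ℕ) with hB
  set E : ℤ := 3 * 3 ^ (m : ℕ) - 3 * 3 ^ (k : ℕ) - 2 * (d3 - d) with hE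
  set G : ℤ := 3 * 3 ^ (m1 : ℕ) - 3 * 3 ^ (k : ℕ) - 2 * (d1 - d) with hG
  have q1 : cen n (c * ((ca n i)⁻¹ * (ca n j * cx n))) =
      c.1 (3 * 3 ^ (j : ℕ) - 1 - 3 * 3 ^ (i : ℕ), 1) := by
    rw [cen, mul_apply', mul_apply', mul_apply', ca, ca, c3_pow_inv_apply, c3_pow_apply, cx_apply]
    congr 1
    ext
    · push_cast; ring
    · simp
  have q3 : cen n (c * ((ca n i)⁻¹ * ca n l)) =
      c.1 (3 * 3 ^ (l : ℕ) + 1 - 3 * 3 ^ (i : ℕ), 0) := by
    rw [cen, mul_apply', mul_apply', ca, ca, c3_pow_inv_apply, c3_pow_apply]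
    congr 1
    ext
    · push_cast; ring
    · simp
  have a3 := haff (3 * 3 ^ (l : ℕ) + 1 - 3 * 3 ^ (i : ℕ), 0) (1, 0)
  have a1 := haff (3 * 3 ^ (j : ℕ) - 1 - 3 * 3 ^ (i : ℕ), 1) (1, 0)
  have b3 : ((3 * 3 ^ (l : ℕ) + 1 - 3 * 3 ^ (i : ℕ), 0) - (1, 0) : R n) =
      ((A : ZMod (M n)), ((0 : ℤ) : ZMod (M n))) := by
    rw [hA]; ext
    · push_cast; simp only [Prod.fst_sub]; ring
    · simp
  have b1 : ((3 * 3 ^ (j : ℕ) - 1 - 3 * 3 ^ (i : ℕ), 1) - (1, 0) : R n) =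
      (((B - 2 : ℤ) : ZMod (M n)), ((1 : ℤ) : ZMod (M n))) := by
    rw [hB]; ext
    · push_cast; simp only [Prod.fst_sub]; ring
    · simp
  rw [b3, ← q3] at a3
  rw [b1, ← q1] at a1
  change _ - cen n c = _ at a3
  change _ - cen n c = _ at a1
  have s3 : (cen n (c * ((ca n i)⁻¹ * ca n l)) - cen n c).1 = (E : ZMod (M n)) := by
    rw [Prod.fst_sub, g1, e1, hE]; push_cast; ring
  have s3' : (cen n (c * ((ca n i)⁻¹ * ca n l)) - cen n c).2 = ((d3 - d : ℤ) : ZMod (M n)) := by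
    rw [Prod.snd_sub, g2, e2]; push_cast; ring
  have s1 : (cen n (c * ((ca n i)⁻¹ * (ca n j * cx n))) - cen n c).1 = (G : ZMod (M n)) := by
    rw [Prod.fst_sub, f1, e1, hG]; push_cast; ring
  have s1' : (cen n (c * ((ca n i)⁻¹ * (ca n j * cx n))) - cen n c).2 =
      ((d1 - d : ℤ) : ZMod (M n)) := by
    rw [Prod.snd_sub, f2, e2]; push_cast; ring
  rw [a3] at s3 s3'
  rw [a1] at s1 s1'
  have bi := pow_lt_M n i
  have bj := pow_lt_M n j
  have bl := pow_lt_M n l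
  have bk := pow_lt_M n k
  have bm := pow_lt_M n m
  have bm1 := pow_lt_M n m1
  have hdb : 0 ≤ d ∧ d ≤ 1 := by rcases hd with rfl | rfl <;> norm_num
  have hdb1 : 0 ≤ d1 ∧ d1 ≤ 1 := by rcases hd1 with rfl | rfl <;> norm_num
  have hdb3 : 0 ≤ d3 ∧ d3 ≤ 1 := by rcases hd3 with rfl | rfl <;> norm_num
  have hAb : |A| ≤ 3 ^ n := by rw [hA, abs_le]; constructor <;> linarith [bi.1, bi.2, bl.1, bl.2]
  have hBb : |B| ≤ 3 ^ n := by rw [hB, abs_le]; constructor <;> linarith [bi.1, bi.2, bj.1, bj.2]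
  have hEb : |E| ≤ 3 ^ n + 2 := by
    rw [hE, abs_le]; constructor <;> linarith [bm.1, bm.2, bk.1, bk.2]
  have hGb : |G| ≤ 3 ^ n + 2 := by
    rw [hG, abs_le]; constructor <;> linarith [bm1.1, bm1.2, bk.1, bk.2]
  have lift : ∀ {u v : ℤ}, (u : ZMod (M n)) = (v : ZMod (M n)) → |u| ≤ 3 ^ n + 5 →
      |v| ≤ 3 ^ n + 5 → u = v := by
    intro u v huv hu hv
    apply eq_of_cast n huv
    rw [M_cast]
    have h3 : (0 : ℤ) < 3 ^ n := by positivity
    have h4 : |u - v| ≤ |u| + |v| := abs_sub _ _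
    linarith
  have hfin : r = 0 ∧ (k : ℕ) = i ∧ d = 0 := by
    refine core (k := k) (m := m) (l := l) (i := i) (j := j) (m1 := m1) hd hd3 hd1
      (fun h => hij (Fin.ext h)) (fun h => hil (Fin.ext h)) (fun h => hjl (Fin.ext h))
      A B E (d3 - d) G (d1 - d) rfl rfl rfl rfl rfl rfl ?_
    obtain ⟨A1, A2⟩ := abs_le.1 hAb
    obtain ⟨B1, B2⟩ := abs_le.1 hBb
    obtain ⟨E1, E2⟩ := abs_le.1 hEb
    obtain ⟨G1, G2⟩ := abs_le.1 hGb
    have hp : (0 : ℤ) < 3 ^ n := by positivity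
    interval_cases r <;>
      simp only [Function.iterate_succ, Function.iterate_zero, Function.comp_apply, id, T] at s3 s3' s1 s1'
    · refine Or.inl ⟨rfl, lift s3.symm ?_ ?_, lift s3'.symm ?_ ?_, lift s1.symm ?_ ?_,
        lift s1'.symm ?_ ?_⟩ <;> exact abs_le.2 ⟨by linarith, by linarith⟩
    · refine Or.inr (Or.inl ⟨rfl, lift ?_ ?_ ?_, lift ?_ ?_ ?_, lift ?_ ?_ ?_,
        lift ?_ ?_ ?_⟩)
      all_goals first
        | exact abs_le.2 ⟨by linarith, by linarith⟩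
        | (rw [← s3]; push_cast; ring)
        | (rw [← s3']; push_cast; ring)
        | (rw [← s1]; push_cast; ring)
        | (rw [← s1']; push_cast; ring)
    · refine Or.inr (Or.inr (Or.inl ⟨rfl, lift ?_ ?_ ?_, lift ?_ ?_ ?_, lift ?_ ?_ ?_,
        lift ?_ ?_ ?_⟩))
      all_goals first
        | exact abs_le.2 ⟨by linarith, by linarith⟩
        | (rw [← s3]; push_cast; ring)
        | (rw [← s3']; push_cast; ring)
        | (rw [← s1]; push_cast; ring)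
        | (rw [← s1']; push_cast; ring)
    · refine Or.inr (Or.inr (Or.inr (Or.inl ⟨rfl, lift ?_ ?_ ?_, lift ?_ ?_ ?_, lift ?_ ?_ ?_,
        lift ?_ ?_ ?_⟩)))
      all_goals first
        | exact abs_le.2 ⟨by linarith, by linarith⟩
        | (rw [← s3]; push_cast; ring)
        | (rw [← s3']; push_cast; ring)
        | (rw [← s1]; push_cast; ring)
        | (rw [← s1']; push_cast; ring)
    · refine Or.inr (Or.inr (Or.inr (Or.inr (Or.inl ⟨rfl, lift ?_ ?_ ?_, lift ?_ ?_ ?_,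
        lift ?_ ?_ ?_, lift ?_ ?_ ?_⟩))))
      all_goals first
        | exact abs_le.2 ⟨by linarith, by linarith⟩
        | (rw [← s3]; push_cast; ring)
        | (rw [← s3']; push_cast; ring)
        | (rw [← s1]; push_cast; ring)
        | (rw [← s1']; push_cast; ring)
    · refine Or.inr (Or.inr (Or.inr (Or.inr (Or.inr ⟨rfl, lift ?_ ?_ ?_, lift ?_ ?_ ?_,
        lift ?_ ?_ ?_, lift ?_ ?_ ?_⟩))))
      all_goals first
        | exact abs_le.2 ⟨by linarith, by linarith⟩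
        | (rw [← s3]; push_cast; ring)
        | (rw [← s3']; push_cast; ring)
        | (rw [← s1]; push_cast; ring)
        | (rw [← s1']; push_cast; ring)
  obtain ⟨h0r, hki, h0d⟩ := hfin
  subst h0r
  apply Subtype.ext
  apply Equiv.ext
  intro w
  have h5 := haff w (1, 0)
  rw [Function.iterate_zero, id] at h5
  have h6 : cen n c = cen n (ca n i) := by
    rw [cen_ca]
    ext
    · rw [e1, h0d, hki]; push_cast; ring
    · rw [e2, h0d]; simp
  have h7 : c.1 (1, 0) = (3 * 3 ^ (i : ℕ) + 1, 0) := by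
    rw [← cen_ca]; exact h6
  rw [h7] at h5
  have h8 : c.1 w = (w - (1, 0)) + (3 * 3 ^ (i : ℕ) + 1, 0) := by
    rw [← h5, sub_add_cancel]
  rw [h8, ca, c3_pow_apply]
  ext
  · push_cast; simp only [Prod.fst_add, Prod.fst_sub]; ring
  · simp

/-- The positions of the labels. -/
def pos : Pos (Cg n) (Fin n) where
  x := cx n
  y := cy n
  a := ca n
  α := R n
  cen := cen n
  hx := cx_sq n
  hy := cy_cube n
  gen := c_gen n
  hz := z6 n
  cen_z := cen_z n
  inj i j h := ca_inj n (congrArg (cen n) h)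
  ne i j h := ca_ne n (congrArg (cen n) h)
  face i r h0 h6 j := by
    constructor
    · intro h
      have h1 := congrArg (cen n) h
      rw [cen_zpow] at h1
      have h2 := ca_inj n h1
      subst h2
      exact z_ne n r h0 h6 (mul_eq_left.1 h)
    · intro h
      have h1 := congrArg (cen n) h
      rw [cen_zpow] at h1
      exact ca_ne n h1
  face' i r h0 h6 j := by
    constructor
    · intro h
      have h1 := congrArg (cen n) h
      rw [cen_zpow] at h1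
      exact ca_ne n h1.symm
    · intro h
      have h1 := congrArg (cen n) h
      rw [cen_zpow] at h1
      have h2 := cax_inj n h1
      subst h2
      exact z_ne n r h0 h6 (mul_eq_left.1 h)
  triple := triple n

end Pool.Agent.U613.MG
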