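import Pool.Agent.U613.MG.Fin
import Pool.Agent.U613.MG.PosC
import Pool.Agent.U613.MG.FP

/-!
# The two-generator subgroup has finite index in the wreath product
-/

set_option autoImplicit false

namespace Pool.Agent.U613.MG

open Pool.Agent.U613.PO Subgroup
open scoped commutatorElement

universe u

instance (n : ℕ) : NeZero (M n) := ⟨by unfold M; positivity⟩

instance (n : ℕ) : Finite (R n) := by unfold R; infer_instance

instance (n : ℕ) : Finite (Cg n) := by unfold Cg; infer_instance

/-- the group `C_k` -/
abbrev Ck (k : ℕ) : Type := Cg (k * 3)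

/-- the positions, three for each generator -/
abbrev pk (k : ℕ) : Pos (Ck k) (Fin (k * 3)) := pos (k * 3)

section

variable {Q : Type u} [Group Q] {k : ℕ} (g : Fin k → Q)

/-- the labels -/
def lab (t : Fin (k * 3)) : Q := g (finProdFinEquiv.symm t).1

theorem lab_closure (hg : closure (Set.range g) = ⊤) : closure (Set.range (lab g)) = ⊤ := by
  rw [← hg]
  congr 1
  ext q
  constructor
  · rintro ⟨t, rfl⟩
    exact ⟨_, rfl⟩
  · rintro ⟨i, rfl⟩
    refine ⟨finProdFinEquiv (i, 0), ?_⟩
    rw [lab, Equiv.symm_apply_apply]

/-- the normal subgroup of the single coordinates -/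
noncomputable def LL : Subgroup Q := (pk k).L (lab g) 1

theorem LL_normal (hg : closure (Set.range g) = ⊤) : (LL g).Normal :=
  (pk k).L_normal (lab g) (lab_closure g hg) 1

theorem LL_triple (hg : closure (Set.range g) = ⊤) (i j l : Fin k) :
    ⁅⁅g i, (g j)⁻¹⁆, g l⁆ ∈ LL g := by
  have h := (pk k).L_triple (lab g) (finProdFinEquiv (i, 0)) (finProdFinEquiv (j, 1))
    (finProdFinEquiv (l, 2)) (by simp) (by simp) (by simp)
  have h1 := (pk k).L_eq (lab g) (lab_closure g hg) 1 _ h
  simp only [lab, Equiv.symm_apply_apply] at h1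
  exact h1

theorem LL_finiteIndex (hg : closure (Set.range g) = ⊤) [Finite (Abelianization Q)] :
    (LL g).FiniteIndex :=
  finiteIndex_L g hg (LL g) (LL_normal g hg) (LL_triple g hg)

/-- a normal subgroup which contains the triple commutators of the generators of a perfect group is
the whole group -/
theorem LL_top (hg : closure (Set.range g) = ⊤) (hp : commutator Q = ⊤) : LL g = ⊤ := by
  have hn := LL_normal g hg
  let π := QuotientGroup.mk' (LL g)
  have hπ : closure (Set.range fun i => π (g i)) = ⊤ := by
    have : (Set.range fun i => π (g i)) = π '' Set.range g := by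
      rw [← Set.range_comp]; rfl
    rw [this, ← MonoidHom.map_closure, hg]
    exact map_top_of_surjective _ (QuotientGroup.mk'_surjective _)
  have h1 : commutator (Q ⧸ LL g) ≤ center (Q ⧸ LL g) := by
    apply comm_le_center (fun i => π (g i)) hπ
    intro i j l
    rw [← map_inv, ← map_commutatorElement, ← map_commutatorElement]
    exact (QuotientGroup.eq_one_iff _).2 (LL_triple g hg i j l)
  have h2 : commutator (Q ⧸ LL g) = ⊤ := by
    have h3 : (commutator Q).map π = commutator (Q ⧸ LL g) := by
      rw [commutator_def, commutator_def, map_commutator,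
        map_top_of_surjective _ (QuotientGroup.mk'_surjective _)]
    rw [← h3, hp]
    exact map_top_of_surjective _ (QuotientGroup.mk'_surjective _)
  rw [h2, top_le_iff] at h1
  have h4 : commutator (Q ⧸ LL g) = ⊥ := by
    rw [commutator_eq_bot_iff_center_eq_top]
    exact h1
  rw [h2] at h4
  rw [eq_top_iff]
  intro q _
  have h5 : π q ∈ (⊥ : Subgroup (Q ⧸ LL g)) := by rw [← h4]; trivial
  exact (QuotientGroup.eq_one_iff _).1 (mem_bot.1 h5)

theorem LL_lcs (hg : closure (Set.range g) = ⊤) : ⁅commutator Q, (⊤ : Subgroup Q)⁆ ≤ LL g := by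
  have hn := LL_normal g hg
  let π := QuotientGroup.mk' (LL g)
  have hπ : closure (Set.range fun i => π (g i)) = ⊤ := by
    have : (Set.range fun i => π (g i)) = π '' Set.range g := by
      rw [← Set.range_comp]; rfl
    rw [this, ← MonoidHom.map_closure, hg]
    exact map_top_of_surjective _ (QuotientGroup.mk'_surjective _)
  have h1 : commutator (Q ⧸ LL g) ≤ center (Q ⧸ LL g) := by
    apply comm_le_center (fun i => π (g i)) hπ
    intro i j l
    rw [← map_inv, ← map_commutatorElement, ← map_commutatorElement]
    exact (QuotientGroup.eq_one_iff _).2 (LL_triple g hg i j l)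
  have h3 : (commutator Q).map π = commutator (Q ⧸ LL g) := by
    rw [commutator_def, commutator_def, map_commutator,
      map_top_of_surjective _ (QuotientGroup.mk'_surjective _)]
  rw [commutator_le]
  intro a ha b _
  have h4 : π a ∈ center (Q ⧸ LL g) := by
    apply h1
    rw [← h3]
    exact ⟨a, ha, rfl⟩
  have h5 : π ⁅a, b⁆ = 1 := by
    rw [map_commutatorElement, commutatorElement_eq_one_iff_mul_comm]
    exact (mem_center_iff.1 h4 (π b)).symm
  exact (QuotientGroup.eq_one_iff _).1 h5

/-- the two-generator group -/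
noncomputable def PP : Subgroup (W (Ck k) Q) := (pk k).P (lab g)

/-- the base part of the two-generator group as a group of functions -/
noncomputable def HH : Subgroup (Ck k → Q) := (PP g).comap SemidirectProduct.inl

theorem HH_of_LL (hg : closure (Set.range g) = ⊤) (f : Ck k → Q) (hf : ∀ c, f c ∈ LL g) :
    f ∈ HH g :=
  (pk k).pi_mem (lab g) (lab_closure g hg) f 1 hf

theorem HH_finiteIndex (hg : closure (Set.range g) = ⊤) [Finite (Abelianization Q)] :
    (HH g).FiniteIndex := by
  have := LL_finiteIndex g hg
  have h1 : ∀ c : Ck k, ((LL g).comap (Pi.evalMonoidHom (fun _ : Ck k => Q) c)).FiniteIndex :=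
    fun c => ⟨by
      rw [(LL g).index_comap_of_surjective (Function.surjective_eval c)]
      exact this.index_ne_zero⟩
  have h2 : (⨅ c : Ck k, (LL g).comap (Pi.evalMonoidHom (fun _ : Ck k => Q) c)).FiniteIndex :=
    finiteIndex_iInf h1
  refine finiteIndex_of_le (H := ⨅ c : Ck k, (LL g).comap (Pi.evalMonoidHom (fun _ : Ck k => Q) c)) ?_
  intro f hf
  apply HH_of_LL g hg
  intro c
  rw [mem_iInf] at hf
  exact hf c

/-- the base part is isomorphic to the group of functions -/
noncomputable def baseEquiv : base (PP g) ≃* HH g where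
  toFun w := ⟨((w : PP g) : W (Ck k) Q).left, by
    have h1 : ((w : PP g) : W (Ck k) Q).right = 1 := w.2
    have h2 : SemidirectProduct.inl (((w : PP g) : W (Ck k) Q).left) = ((w : PP g) : W (Ck k) Q) := by
      apply SemidirectProduct.ext
      · rfl
      · exact h1.symm
    show SemidirectProduct.inl _ ∈ PP g
    rw [h2]
    exact (w : PP g).2⟩
  invFun f := ⟨⟨SemidirectProduct.inl (f : Ck k → Q), f.2⟩, rfl⟩
  left_inv w := by
    apply Subtype.ext
    apply Subtype.ext
    apply SemidirectProduct.ext
    · rfl
    · exact w.2.symm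
  right_inv f := rfl
  map_mul' a b := by
    apply Subtype.ext
    funext c
    have h : c * ((a : PP g) : W (Ck k) Q).right = c := by
      rw [show ((a : PP g) : W (Ck k) Q).right = 1 from a.2, mul_one]
    exact congrArg (fun d => ((a : PP g) : W (Ck k) Q).left c * ((b : PP g) : W (Ck k) Q).left d) h

instance base_finiteIndex : (base (PP g)).FiniteIndex := by
  unfold base
  infer_instance

/-- the two-generator group has finite index in the wreath product -/
theorem PP_finiteIndex (hg : closure (Set.range g) = ⊤) [Finite (Abelianization Q)] :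
    (PP g).FiniteIndex := by
  have h1 := HH_finiteIndex g hg
  have h2 : ((HH g).map (SemidirectProduct.inl : (Ck k → Q) →* W (Ck k) Q)).FiniteIndex := by
    have h3 : (SemidirectProduct.inl : (Ck k → Q) →* W (Ck k) Q).range.FiniteIndex := by
      rw [SemidirectProduct.range_inl_eq_ker_rightHom]
      infer_instance
    refine ⟨?_⟩
    rw [index_map, (MonoidHom.ker_eq_bot_iff _).2 SemidirectProduct.inl_injective, sup_bot_eq]
    exact mul_ne_zero h1.index_ne_zero h3.index_ne_zero
  refine finiteIndex_of_le (H := (HH g).map (SemidirectProduct.inl : (Ck k → Q) →* W (Ck k) Q)) ?_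
  rw [map_le_iff_le_comap]
  exact le_rfl

/-- for a perfect group it is everything -/
theorem PP_top (hg : closure (Set.range g) = ⊤) (hp : commutator Q = ⊤) : PP g = ⊤ := by
  rw [eq_top_iff]
  intro w _
  obtain ⟨v, hv, hv1, -⟩ := (pk k).reach (lab g) 1 w.right
  have h1 : w * v⁻¹ ∈ PP g := by
    have h2 : (w * v⁻¹).right = 1 := by
      rw [SemidirectProduct.mul_right, SemidirectProduct.inv_right, ← hv1, one_mul, mul_inv_cancel]
    have h3 : w * v⁻¹ = ⟨(w * v⁻¹).left, 1⟩ := by
      apply SemidirectProduct.ext
      · rfl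
      · exact h2
    rw [h3]
    refine HH_of_LL g hg _ fun c => ?_
    rw [LL_top g hg hp]
    trivial
  have h2 := mul_mem h1 (show v ∈ PP g from hv)
  rwa [inv_mul_cancel_right] at h2

end

theorem PP_base {Q : Type u} [Group Q] {k : ℕ} (g : Fin k → Q)
    (hg : closure (Set.range g) = ⊤) (c : Ck k) (q : Q) :
    ∃ w ∈ PP g, w.right = 1 ∧ w.left c = q :=
  (pk k).base_surj (lab g) (lab_closure g hg) c q

/-- finite presentability of the two-generator group -/
theorem PP_fp {Q : Type} [Group Q] {k : ℕ} (g : Fin k → Q) (hg : closure (Set.range g) = ⊤)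
    [Finite (Abelianization Q)] [Group.IsFinitelyPresented Q] :
    Group.IsFinitelyPresented (PP g) := by
  have h0 : Group.IsFinitelyPresented (Ck k → Q) := fp_pi
  have h1 := HH_finiteIndex g hg
  have h2 : Group.IsFinitelyPresented (HH g) :=
    Pool.Agent.V11238.MG.fp_of_finiteIndex (HH g)
  have h3 : Group.IsFinitelyPresented (base (PP g)) :=
    Group.IsFinitelyPresented.equiv (baseEquiv g).symm
  have h4 : Group.FG (PP g) := by
    classical
    rw [Group.fg_iff_subgroup_fg]
    exact ⟨{(pk k).X (lab g), (pk k).Y}, by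
      rw [Finset.coe_insert, Finset.coe_singleton]; rfl⟩
  exact fp_of_sub (base (PP g)) h3

end Pool.Agent.U613.MG
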