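import Pool.Agent.U613.PO.Lab

/-!
# Two-generator subgroups of finite index in wreath products

`C` is a finite group generated by `x` and `y`, `z = x y`, `a i` are elements of `C`.  The edges
`c → c x` of the Cayley graph are labelled by `f c`, where `f (a i) = s i`, `f (a i x) = (s i)⁻¹` and
`f c = 1` at the other places.  If the positions are in general position, then the group generated by
`X = (f, x)` and `Y = (1, y)` contains all functions on `C` with values in a normal subgroup `L` of `Q`
which contains the double commutators of the `s i`.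
-/

set_option autoImplicit false

namespace Pool.Agent.U613.MG

open Pool.Agent.U613.PO
open scoped commutatorElement

universe u v w

section Base

variable {C : Type u} {Q : Type v} [Group C] [Group Q]

theorem W.conj_left (w b : W C Q) (hb : b.right = 1) (c : C) :
    (w * b * w⁻¹).left c = w.left c * b.left (c * w.right) * (w.left c)⁻¹ := by
  rw [W.mul_left_apply, W.mul_left_apply, W.inv_left_apply, SemidirectProduct.mul_right, hb, mul_one,
    mul_inv_cancel_right]

theorem W.conj_right (w b : W C Q) (hb : b.right = 1) : (w * b * w⁻¹).right = 1 := by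
  rw [SemidirectProduct.mul_right, SemidirectProduct.mul_right, SemidirectProduct.inv_right, hb,
    mul_one, mul_inv_cancel]

theorem W.comm_right (a b : W C Q) (ha : a.right = 1) (hb : b.right = 1) : ⁅a, b⁆.right = 1 := by
  rw [commutatorElement_def]
  simp only [SemidirectProduct.mul_right, SemidirectProduct.inv_right, ha, hb, inv_one, mul_one]

theorem W.comm_left (a b : W C Q) (ha : a.right = 1) (hb : b.right = 1) (c : C) :
    ⁅a, b⁆.left c = ⁅a.left c, b.left c⁆ := by
  rw [commutatorElement_def, commutatorElement_def]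
  simp only [W.mul_left_apply, W.inv_left_apply, SemidirectProduct.mul_right,
    SemidirectProduct.inv_right, ha, hb, inv_one, mul_one]

end Base

/-- the positions of the labels -/
structure Pos (C : Type u) [Group C] (I : Type w) where
  x : C
  y : C
  a : I → C
  /-- the centre of the face -/
  α : Type
  cen : C → α
  hx : x * x = 1
  hy : y * y * y = 1
  gen : Subgroup.closure {x, y} = ⊤
  hz : (x * y) ^ 6 = 1
  cen_z : ∀ c, cen (c * (x * y)) = cen c
  inj : ∀ i j, a i = a j → i = j
  ne : ∀ i j, a i ≠ a j * x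
  /-- no other labelled edge in the face of a labelled edge -/
  face : ∀ i (r : ℕ), 0 < r → r < 6 → ∀ j, a i * (x * y) ^ r ≠ a j ∧ a i * (x * y) ^ r ≠ a j * x
  face' : ∀ i (r : ℕ), 0 < r → r < 6 → ∀ j,
    a i * x * (x * y) ^ r ≠ a j ∧ a i * x * (x * y) ^ r ≠ a j * x
  /-- the faces of `c`, `c (a i)⁻¹ (a j) x` and `c (a i)⁻¹ (a l)` are labelled for `c = a i` only -/
  triple : ∀ i j l, i ≠ j → i ≠ l → j ≠ l → ∀ c : C,
    (∃ k, cen c = cen (a k) ∨ cen c = cen (a k * x)) →
    (∃ k, cen (c * ((a i)⁻¹ * (a j * x))) = cen (a k) ∨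
      cen (c * ((a i)⁻¹ * (a j * x))) = cen (a k * x)) →
    (∃ k, cen (c * ((a i)⁻¹ * a l)) = cen (a k) ∨
      cen (c * ((a i)⁻¹ * a l)) = cen (a k * x)) → c = a i

namespace Pos

variable {C : Type u} [Group C] {I : Type w} (p : Pos C I) {Q : Type v} [Group Q] (s : I → Q)

open Classical in
/-- the labels -/
noncomputable def f (c : C) : Q :=
  if h : ∃ i, c = p.a i then s h.choose else
    if h : ∃ i, c = p.a i * p.x then (s h.choose)⁻¹ else 1

theorem f_a (i : I) : p.f s (p.a i) = s i := by
  have h : ∃ j, p.a i = p.a j := ⟨i, rfl⟩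
  rw [f, dif_pos h]
  rw [← p.inj _ _ h.choose_spec]

theorem f_ax (i : I) : p.f s (p.a i * p.x) = (s i)⁻¹ := by
  have h0 : ¬ ∃ j, p.a i * p.x = p.a j := by
    rintro ⟨j, hj⟩
    exact p.ne j i hj.symm
  have h : ∃ j, p.a i * p.x = p.a j * p.x := ⟨i, rfl⟩
  rw [f, dif_neg h0, dif_pos h]
  rw [← p.inj _ _ (mul_right_cancel h.choose_spec)]

theorem f_one {c : C} (h : ∀ i, c ≠ p.a i ∧ c ≠ p.a i * p.x) : p.f s c = 1 := by
  rw [f, dif_neg (by rintro ⟨i, hi⟩; exact (h i).1 hi),
    dif_neg (by rintro ⟨i, hi⟩; exact (h i).2 hi)]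

theorem f_ne {c : C} (h : p.f s c ≠ 1) : ∃ i, c = p.a i ∨ c = p.a i * p.x := by
  by_contra hcon
  push Not at hcon
  exact h (p.f_one s hcon)

theorem f_mul (c : C) : p.f s c * p.f s (c * p.x) = 1 := by
  by_cases h1 : ∃ i, c = p.a i
  · obtain ⟨i, rfl⟩ := h1
    rw [f_a, f_ax, mul_inv_cancel]
  by_cases h2 : ∃ i, c = p.a i * p.x
  · obtain ⟨i, rfl⟩ := h2
    rw [f_ax, mul_assoc, p.hx, mul_one, f_a, inv_mul_cancel]
  · rw [f_one, f_one, mul_one]
    · intro i
      constructor
      · intro h
        apply h2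
        exact ⟨i, by rw [← h, mul_assoc, p.hx, mul_one]⟩
      · intro h
        exact h1 ⟨i, mul_right_cancel h⟩
    · intro i
      exact ⟨fun h => h1 ⟨i, h⟩, fun h => h2 ⟨i, h⟩⟩

/-- the generator of order two -/
noncomputable def X : W C Q := ⟨p.f s, p.x⟩

/-- the generator of order three -/
def Y : W C Q := ⟨1, p.y⟩

theorem X_sq : p.X s * p.X s = 1 := by
  apply SemidirectProduct.ext
  · funext c
    rw [W.mul_left_apply]
    exact p.f_mul s c
  · exact p.hx

theorem Y_cube : (p.Y : W C Q) * p.Y * p.Y = 1 := by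
  apply SemidirectProduct.ext
  · funext c
    rw [W.mul_left_apply, W.mul_left_apply]
    simp [Y]
  · exact p.hy

/-- the two-generator group -/
noncomputable def P : Subgroup (W C Q) := Subgroup.closure {p.X s, p.Y}

theorem X_mem : p.X s ∈ p.P s := Subgroup.subset_closure (Or.inl rfl)

theorem Y_mem : (p.Y : W C Q) ∈ p.P s := Subgroup.subset_closure (Or.inr rfl)

theorem XY_right (r : ℕ) : ((p.X s * p.Y) ^ r).right = (p.x * p.y) ^ r := by
  rw [W.pow_right]
  rfl

theorem XY_left (r : ℕ) (c : C) (h : ∀ t < r, p.f s (c * (p.x * p.y) ^ t) = 1) :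
    ((p.X s * p.Y) ^ r).left c = 1 := by
  induction r with
  | zero => rw [pow_zero]; rfl
  | succ r ih =>
    rw [pow_succ, W.mul_left_apply, ih (fun t ht => h t (by omega)), one_mul, XY_right,
      W.mul_left_apply]
    have h1 : (p.X s).left (c * (p.x * p.y) ^ r) = 1 := h r (by omega)
    rw [h1, one_mul]
    rfl

/-- the base element `(X Y)^6` -/
noncomputable def U : W C Q := (p.X s * p.Y) ^ 6

theorem U_mem : p.U s ∈ p.P s :=
  Subgroup.pow_mem _ (Subgroup.mul_mem _ (p.X_mem s) (p.Y_mem s)) _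

theorem U_right : (p.U s).right = 1 := by
  rw [U, XY_right, p.hz]

theorem U_left_of (c : C) (h : ∀ t, 0 < t → t < 6 → p.f s (c * (p.x * p.y) ^ t) = 1) :
    (p.U s).left c = p.f s c := by
  rw [U, pow_succ', W.mul_left_apply, W.mul_left_apply, XY_left]
  · rw [mul_one]
    change p.f s c * 1 = _
    rw [mul_one]
  · intro t ht
    have h1 := h (t + 1) (by omega) (by omega)
    rw [pow_succ', ← mul_assoc] at h1
    exact h1

theorem U_a (i : I) : (p.U s).left (p.a i) = s i := by
  rw [p.U_left_of s, p.f_a]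
  intro t h0 h6
  exact p.f_one s fun j => p.face i t h0 h6 j

theorem U_ax (i : I) : (p.U s).left (p.a i * p.x) = (s i)⁻¹ := by
  rw [p.U_left_of s, p.f_ax]
  intro t h0 h6
  exact p.f_one s fun j => p.face' i t h0 h6 j

theorem cen_pow (c : C) (r : ℕ) : p.cen (c * (p.x * p.y) ^ r) = p.cen c := by
  induction r with
  | zero => rw [pow_zero, mul_one]
  | succ r ih => rw [pow_succ, ← mul_assoc, p.cen_z, ih]

theorem U_ne {c : C} (h : (p.U s).left c ≠ 1) :
    ∃ k, p.cen c = p.cen (p.a k) ∨ p.cen c = p.cen (p.a k * p.x) := by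
  have h1 : ∃ t < 6, p.f s (c * (p.x * p.y) ^ t) ≠ 1 := by
    by_contra hcon
    push Not at hcon
    exact h (p.XY_left s 6 c hcon)
  obtain ⟨t, -, ht⟩ := h1
  obtain ⟨k, hk⟩ := p.f_ne s ht
  refine ⟨k, ?_⟩
  rw [← p.cen_pow c t]
  rcases hk with hk | hk
  · left; rw [hk]
  · right; rw [hk]

/-- there is a path from `a` to `b` with trivial label -/
def Reach (a b : C) : Prop := ∃ w ∈ p.P s, a * w.right = b ∧ w.left a = 1

theorem Reach.refl (a : C) : p.Reach s a a :=
  ⟨1, Subgroup.one_mem _, mul_one a, rfl⟩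

theorem Reach.trans {a b c : C} (h1 : p.Reach s a b) (h2 : p.Reach s b c) : p.Reach s a c := by
  obtain ⟨w, hw, hw1, hw2⟩ := h1
  obtain ⟨v, hv, hv1, hv2⟩ := h2
  refine ⟨w * v, Subgroup.mul_mem _ hw hv, ?_, ?_⟩
  · rw [SemidirectProduct.mul_right, ← mul_assoc, hw1, hv1]
  · rw [W.mul_left_apply, hw1, hw2, hv2, mul_one]

theorem Reach.symm {a b : C} (h1 : p.Reach s a b) : p.Reach s b a := by
  obtain ⟨w, hw, hw1, hw2⟩ := h1
  refine ⟨w⁻¹, Subgroup.inv_mem _ hw, ?_, ?_⟩
  · rw [SemidirectProduct.inv_right, ← hw1, mul_inv_cancel_right]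
  · rw [W.inv_left_apply, ← hw1, mul_inv_cancel_right, hw2, inv_one]

theorem reach_y (a : C) : p.Reach s a (a * p.y) := ⟨p.Y, p.Y_mem s, rfl, rfl⟩

theorem reach_face (c : C) (h : ∀ t, 0 < t → t < 6 → p.f s (c * (p.x * p.y) ^ t) = 1) :
    p.Reach s (c * p.x) c := by
  refine Reach.trans p s (p.reach_y s (c * p.x)) ⟨(p.X s * p.Y) ^ 5, Subgroup.pow_mem _
    (Subgroup.mul_mem _ (p.X_mem s) (p.Y_mem s)) _, ?_, ?_⟩
  · rw [XY_right, mul_assoc c, mul_assoc c, ← pow_succ', p.hz, mul_one]
  · apply XY_left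
    intro t ht
    have h1 := h (t + 1) (by omega) (by omega)
    rw [pow_succ', ← mul_assoc, ← mul_assoc] at h1
    exact h1

theorem reach_x (c : C) : p.Reach s c (c * p.x) := by
  by_cases h : p.f s c = 1
  · exact ⟨p.X s, p.X_mem s, rfl, h⟩
  · obtain ⟨i, rfl | rfl⟩ := p.f_ne s h
    · exact Reach.symm p s (p.reach_face s _ fun t h0 h6 => p.f_one s fun j => p.face i t h0 h6 j)
    · exact Reach.symm p s (p.reach_face s _ fun t h0 h6 => p.f_one s fun j => p.face' i t h0 h6 j)

theorem reach (a b : C) : p.Reach s a b := by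
  have key : ∀ c ∈ Subgroup.closure {p.x, p.y}, ∀ a, p.Reach s a (a * c) := by
    intro c hc
    induction hc using Subgroup.closure_induction with
    | mem c hc =>
      rcases hc with rfl | hc
      · exact p.reach_x s
      · rw [Set.mem_singleton_iff] at hc
        subst hc
        exact p.reach_y s
    | one => intro a; rw [mul_one]; exact Reach.refl p s a
    | mul c d _ _ hc hd =>
      intro a
      rw [← mul_assoc]
      exact Reach.trans p s (hc a) (hd _)
    | inv c _ hc =>
      intro a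
      have h1 := hc (a * c⁻¹)
      rw [inv_mul_cancel_right] at h1
      exact Reach.symm p s h1
  have h1 := key (a⁻¹ * b) (by rw [p.gen]; trivial) a
  rwa [mul_inv_cancel_left] at h1

variable (hs : Subgroup.closure (Set.range s) = ⊤)

include hs in
theorem base_surj (c : C) (q : Q) : ∃ w ∈ p.P s, w.right = 1 ∧ w.left c = q := by
  have hq : q ∈ Subgroup.closure (Set.range s) := by rw [hs]; trivial
  induction hq using Subgroup.closure_induction with
  | mem q hq =>
    obtain ⟨i, rfl⟩ := hq
    obtain ⟨w, hw, hw1, hw2⟩ := p.reach s c (p.a i)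
    refine ⟨w * p.U s * w⁻¹, Subgroup.mul_mem _ (Subgroup.mul_mem _ hw (p.U_mem s))
      (Subgroup.inv_mem _ hw), W.conj_right _ _ (p.U_right s), ?_⟩
    rw [W.conj_left _ _ (p.U_right s), hw1, hw2, one_mul, inv_one, mul_one, U_a]
  | one => exact ⟨1, Subgroup.one_mem _, rfl, rfl⟩
  | mul q r _ _ hq hr =>
    obtain ⟨w, hw, hw1, hw2⟩ := hq
    obtain ⟨v, hv, hv1, hv2⟩ := hr
    refine ⟨w * v, Subgroup.mul_mem _ hw hv, ?_, ?_⟩
    · rw [SemidirectProduct.mul_right, hw1, hv1, one_mul]
    · rw [W.mul_left_apply, hw1, mul_one, hw2, hv2]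
  | inv q _ hq =>
    obtain ⟨w, hw, hw1, hw2⟩ := hq
    refine ⟨w⁻¹, Subgroup.inv_mem _ hw, ?_, ?_⟩
    · rw [SemidirectProduct.inv_right, hw1, inv_one]
    · rw [W.inv_left_apply, hw1, inv_one, mul_one, hw2]

include hs in
theorem path (a b : C) (q : Q) : ∃ w ∈ p.P s, a * w.right = b ∧ w.left a = q := by
  obtain ⟨w, hw, hw1, hw2⟩ := p.base_surj s hs a q
  obtain ⟨v, hv, hv1, hv2⟩ := p.reach s a b
  refine ⟨w * v, Subgroup.mul_mem _ hw hv, ?_, ?_⟩
  · rw [SemidirectProduct.mul_right, hw1, one_mul, hv1]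
  · rw [W.mul_left_apply, hw1, mul_one, hw2, hv2, mul_one]

open Classical in
/-- the element of the base with one nontrivial coordinate -/
noncomputable def sing (c : C) (q : Q) : W C Q := ⟨fun d => if d = c then q else 1, 1⟩

open Classical in
theorem sing_left (c d : C) (q : Q) : (sing c q).left d = if d = c then q else 1 := rfl

theorem sing_mul (c : C) (q r : Q) : sing c (q * r) = sing c q * sing c r := by
  classical
  apply SemidirectProduct.ext
  · funext d
    rw [W.mul_left_apply, sing_left, sing_left, sing_left]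
    have h : (sing c q).right = 1 := rfl
    rw [h, mul_one]
    split_ifs <;> simp
  · change (1 : C) = 1 * 1
    rw [one_mul]

theorem sing_inv (c : C) (q : Q) : sing c q⁻¹ = (sing c q)⁻¹ := by
  classical
  apply eq_inv_of_mul_eq_one_left
  rw [← sing_mul, inv_mul_cancel]
  apply SemidirectProduct.ext
  · funext d
    rw [sing_left]
    split_ifs <;> rfl
  · rfl

theorem sing_conj {a b : C} {w : W C Q} (h : a * w.right = b) (q : Q) :
    w * sing b q * w⁻¹ = sing a (w.left a * q * (w.left a)⁻¹) := by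
  classical
  apply SemidirectProduct.ext
  · funext d
    rw [W.conj_left _ _ rfl, sing_left, sing_left]
    by_cases hd : d = a
    · subst hd
      rw [if_pos h, if_pos rfl]
    · rw [if_neg hd, if_neg, mul_one, mul_inv_cancel]
      intro h1
      apply hd
      rw [← h] at h1
      exact mul_right_cancel h1
  · exact W.conj_right _ _ rfl

/-- the subgroup of the possible single coordinates -/
noncomputable def L (c : C) : Subgroup Q where
  carrier := {q | sing c q ∈ p.P s}
  mul_mem' {a b} ha hb := by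
    change sing c (a * b) ∈ p.P s
    rw [sing_mul]
    exact Subgroup.mul_mem _ ha hb
  one_mem' := by
    change sing c 1 ∈ p.P s
    have h : sing c (1 : Q) = 1 := by
      have := sing_mul c (1 : Q) 1
      rw [mul_one] at this
      exact (mul_eq_left.1 this.symm)
    rw [h]
    exact Subgroup.one_mem _
  inv_mem' {a} ha := by
    change sing c a⁻¹ ∈ p.P s
    rw [sing_inv]
    exact Subgroup.inv_mem _ ha

include hs in
theorem L_conj (a b : C) (q r : Q) (hr : r ∈ p.L s b) : q * r * q⁻¹ ∈ p.L s a := by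
  obtain ⟨w, hw, hw1, hw2⟩ := p.path s hs a b q
  change sing a (q * r * q⁻¹) ∈ p.P s
  rw [← hw2, ← sing_conj hw1]
  exact Subgroup.mul_mem _ (Subgroup.mul_mem _ hw hr) (Subgroup.inv_mem _ hw)

include hs in
theorem L_eq (a b : C) {r : Q} (hr : r ∈ p.L s b) : r ∈ p.L s a := by
  have := p.L_conj s hs a b 1 r hr
  rwa [one_mul, inv_one, mul_one] at this

include hs in
theorem L_normal (a : C) : (p.L s a).Normal :=
  ⟨fun r hr q => p.L_conj s hs a a q r hr⟩

theorem L_triple (i j l : I) (hij : i ≠ j) (hil : i ≠ l) (hjl : j ≠ l) :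
    ⁅⁅s i, (s j)⁻¹⁆, s l⁆ ∈ p.L s (p.a i) := by
  classical
  obtain ⟨w1, hw1, hw1r, hw1l⟩ := p.reach s (p.a i) (p.a j * p.x)
  obtain ⟨w3, hw3, hw3r, hw3l⟩ := p.reach s (p.a i) (p.a l)
  have hU := p.U_right s
  set u1 : W C Q := w1 * p.U s * w1⁻¹ with hu1
  set u3 : W C Q := w3 * p.U s * w3⁻¹ with hu3
  have hu1r : u1.right = 1 := W.conj_right _ _ hU
  have hu3r : u3.right = 1 := W.conj_right _ _ hU
  have hv : ⁅p.U s, u1⁆.right = 1 := W.comm_right _ _ hU hu1r
  have hmem : ⁅⁅p.U s, u1⁆, u3⁆ ∈ p.P s := by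
    have h1 : u1 ∈ p.P s := Subgroup.mul_mem _ (Subgroup.mul_mem _ hw1 (p.U_mem s))
      (Subgroup.inv_mem _ hw1)
    have h3 : u3 ∈ p.P s := Subgroup.mul_mem _ (Subgroup.mul_mem _ hw3 (p.U_mem s))
      (Subgroup.inv_mem _ hw3)
    have h0 := p.U_mem s
    have h4 : ⁅p.U s, u1⁆ ∈ p.P s := by
      rw [commutatorElement_def]
      exact Subgroup.mul_mem _ (Subgroup.mul_mem _ (Subgroup.mul_mem _ h0 h1)
        (Subgroup.inv_mem _ h0)) (Subgroup.inv_mem _ h1)
    rw [commutatorElement_def]
    exact Subgroup.mul_mem _ (Subgroup.mul_mem _ (Subgroup.mul_mem _ h4 h3)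
        (Subgroup.inv_mem _ h4)) (Subgroup.inv_mem _ h3)
  change sing (p.a i) _ ∈ p.P s
  have heq : sing (p.a i) ⁅⁅s i, (s j)⁻¹⁆, s l⁆ = ⁅⁅p.U s, u1⁆, u3⁆ := by
    apply SemidirectProduct.ext
    · funext c
      rw [sing_left, W.comm_left _ _ hv hu3r, W.comm_left _ _ hU hu1r, hu1, hu3,
        W.conj_left _ _ hU, W.conj_left _ _ hU]
      by_cases hc : c = p.a i
      · subst hc
        rw [if_pos rfl, hw1r, hw3r, hw1l, hw3l, p.U_a, p.U_ax, p.U_a]
        simp
      · rw [if_neg hc]
        by_cases h0 : (p.U s).left c = 1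
        · rw [h0]; simp
        by_cases h1 : (p.U s).left (c * w1.right) = 1
        · rw [h1]; simp
        by_cases h3 : (p.U s).left (c * w3.right) = 1
        · rw [h3]; simp
        exfalso
        apply hc
        have e1 : w1.right = (p.a i)⁻¹ * (p.a j * p.x) := by rw [← hw1r, inv_mul_cancel_left]
        have e3 : w3.right = (p.a i)⁻¹ * p.a l := by rw [← hw3r, inv_mul_cancel_left]
        rw [e1] at h1
        rw [e3] at h3
        exact p.triple i j l hij hil hjl c (p.U_ne s h0) (p.U_ne s h1) (p.U_ne s h3)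
    · exact (W.comm_right _ _ hv hu3r).symm
  rw [heq]
  exact hmem

include hs in
theorem pi_mem [Finite C] (g : C → Q) (c0 : C) (hg : ∀ c, g c ∈ p.L s c0) :
    (⟨g, 1⟩ : W C Q) ∈ p.P s := by
  classical
  have := Fintype.ofFinite C
  have key : ∀ (S : Finset C) (g : C → Q), (∀ c, g c ∈ p.L s c0) → (∀ c ∉ S, g c = 1) →
      (⟨g, 1⟩ : W C Q) ∈ p.P s := by
    intro S
    induction S using Finset.induction_on with
    | empty =>
      intro g _ h
      have h1 : (⟨g, 1⟩ : W C Q) = 1 := by
        apply SemidirectProduct.ext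
        · funext c; exact h c (by simp)
        · rfl
      rw [h1]; exact Subgroup.one_mem _
    | insert a S ha ih =>
      intro g hg h
      have h1 : (⟨g, 1⟩ : W C Q) = sing a (g a) * ⟨Function.update g a 1, 1⟩ := by
        apply SemidirectProduct.ext
        · funext c
          rw [W.mul_left_apply, sing_left]
          have h2 : (sing a (g a)).right = 1 := rfl
          rw [h2, mul_one]
          by_cases hc : c = a
          · subst hc; simp
          · simp [Function.update_of_ne hc, hc]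
        · change (1 : C) = 1 * 1
          rw [one_mul]
      rw [h1]
      refine Subgroup.mul_mem _ ?_ (ih _ ?_ ?_)
      · exact p.L_eq s hs a c0 (hg a)
      · intro c
        by_cases hc : c = a
        · subst hc; rw [Function.update_self]; exact Subgroup.one_mem _
        · rw [Function.update_of_ne hc]; exact hg c
      · intro c hc
        by_cases hca : c = a
        · subst hca; rw [Function.update_self]
        · rw [Function.update_of_ne hca]
          exact h c (by simp [hca, hc])
  exact key Finset.univ g hg (fun c hc => absurd (Finset.mem_univ c) hc)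

end Pos

end Pool.Agent.U613.MG
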